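import Pool.Agent.Lib.MP_81b71e_M.Spec

/-!
# MP_81b71e_al, modular lattices: the congruence which collapses the prime quotients outside of `P`
-/

set_option autoImplicit false

namespace MP81M

universe u

namespace CorAux

variable {K : Type u} [Lattice K]

theorem wf (hF : Fh K) : WellFounded ((· < ·) : K → K → Prop) := by
  have h : Subrelation ((· < ·) : K → K → Prop) (InvImage (· < ·) fun x : K => Order.height x) := by
    intro x y hxy
    exact Order.height_strictMono hxy (lt_top_iff_ne_top.2 (hF x))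
  exact Subrelation.wf h (InvImage.wf _ wellFounded_lt)

/-- minimal elements -/
theorem exMin (hF : Fh K) {S : K → Prop} {s₀ : K} (h₀ : S s₀) :
    ∃ s, S s ∧ s ≤ s₀ ∧ ∀ t, S t → t ≤ s → t = s := by
  obtain ⟨s, ⟨hs, hs0⟩, hm⟩ := (wf hF).has_min {s | S s ∧ s ≤ s₀} ⟨s₀, h₀, le_rfl⟩
  refine ⟨s, hs, hs0, fun t ht hts => ?_⟩
  by_contra hne
  exact hm t ⟨ht, hts.trans hs0⟩ (lt_of_le_of_ne hts hne)

theorem F1 {P : K → K → Prop} {x x' y y' : K} (h : Fr P x y) (hx : x ≤ x') (hy : y' ≤ y) :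
    Fr P x' y' := fun a b ha hb => h a b (hx.trans ha) (hb.trans hy)

variable [IsModularLattice K]

theorem covSup {x y : K} (u : K) (h : x ⋖ y) (hn : ¬ y ≤ x ⊔ u) : x ⊔ u ⋖ y ⊔ u := by
  have h1 : y ⊓ (x ⊔ u) = x := by
    have h2 : y ⊓ (x ⊔ u) < y := lt_of_le_of_ne inf_le_left fun e => hn (inf_eq_left.1 e)
    by_contra hne
    exact h.2 (lt_of_le_of_ne (le_inf h.le le_sup_left) fun e => hne e.symm) h2
  have h3 : y ⊓ (x ⊔ u) ⋖ y := by rw [h1]; exact h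
  have h4 := covBy_sup_of_inf_covBy_left h3
  rwa [← sup_assoc, sup_eq_left.2 h.le] at h4

theorem covInf {x y : K} (u : K) (h : x ⋖ y) (hn : ¬ y ⊓ u ≤ x) : x ⊓ u ⋖ y ⊓ u ∧ (y ⊓ u) ⊔ x = y := by
  have h1 : (y ⊓ u) ⊔ x = y := by
    have h2 : x < (y ⊓ u) ⊔ x := lt_of_le_of_ne le_sup_right fun e => hn (by rw [e]; exact le_sup_left)
    by_contra hne
    exact h.2 h2 (lt_of_le_of_ne (sup_le inf_le_left h.le) hne)
  refine ⟨?_, h1⟩
  have h3 : x ⋖ (y ⊓ u) ⊔ x := by rw [h1]; exact h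
  have h4 := inf_covBy_of_covBy_sup_right h3
  rwa [inf_right_comm, inf_eq_right.2 h.le] at h4

/-- transposing up -/
theorem up {P : K → K → Prop} (hP : Cl P) {a b y : K} (h : P a b) (hb : b ⊓ y ≤ a) :
    P (a ⊔ y) (b ⊔ y) := by
  have hab := hP.1 a b h
  have h1 : b ⊓ (a ⊔ y) = a := by
    rw [inf_comm, sup_inf_assoc_of_le y hab.le, inf_comm y b]
    exact sup_eq_left.2 hb
  have hn : ¬ b ≤ a ⊔ y := by
    intro h2
    rw [inf_eq_left.2 h2] at h1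
    exact hab.ne h1.symm
  refine (hP.2 (a, b) (a ⊔ y, b ⊔ y) ⟨hab, covSup y hab hn, h1, ?_⟩).1 h
  show b ⊔ (a ⊔ y) = b ⊔ y
  rw [← sup_assoc, sup_eq_left.2 hab.le]

/-- transposing down -/
theorem down {P : K → K → Prop} (hP : Cl P) {c d x : K} (h : P c d) (hn : ¬ d ⊓ x ≤ c) :
    P (c ⊓ x) (d ⊓ x) := by
  have hcd := hP.1 c d h
  obtain ⟨h1, h2⟩ := covInf x hcd hn
  refine (hP.2 (c ⊓ x, d ⊓ x) (c, d) ⟨h1, hcd, ?_, h2⟩).2 h
  show d ⊓ x ⊓ c = c ⊓ x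
  rw [inf_right_comm, inf_eq_right.2 hcd.le]

theorem F2a {P : K → K → Prop} (hP : Cl P) {x y : K} (h : Fr P y (x ⊔ y)) : Fr P (x ⊓ y) x := by
  intro a b ha hb hab
  refine h (a ⊔ y) (b ⊔ y) le_sup_right (sup_le_sup_right hb _) (up hP hab ?_)
  exact (inf_le_inf_right _ hb).trans ha

theorem F2b {P : K → K → Prop} (hP : Cl P) {x y : K} (h : Fr P (x ⊓ y) x) : Fr P y (x ⊔ y) := by
  intro c d hc hd hcd
  have hcd' := hP.1 c d hcd
  refine h (c ⊓ x) (d ⊓ x) (le_inf (inf_le_right.trans hc) inf_le_left) inf_le_right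
    (down hP hcd ?_)
  intro hn
  have h1 : (d ⊓ x) ⊔ c = d := by
    rw [inf_sup_assoc_of_le x hcd'.le]
    exact inf_eq_left.2 (hd.trans (sup_le_sup_left hc _))
  rw [sup_eq_right.2 hn] at h1
  exact hcd'.ne h1

theorem F3 {P : K → K → Prop} (hP : Cl P) {x y z : K} (hxy : x ≤ y) (hyz : y ≤ z) (h1 : Fr P x y)
    (h2 : Fr P y z) : Fr P x z := by
  intro a b ha hb hab
  by_cases hn : b ⊓ y ≤ a
  · exact h2 (a ⊔ y) (b ⊔ y) le_sup_right (sup_le hb hyz) (up hP hab hn)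
  · exact h1 (a ⊓ y) (b ⊓ y) (le_inf ha hxy) inf_le_right (down hP hab hn)

end CorAux

open CorAux in
theorem tCor : S_Cor.{u} := by
  intro K _ _ _ hF P hP
  have ex : ∀ x : K, ∃ y, y ≤ x ∧ Fr P y x ∧ ∀ z, z ≤ x → Fr P z x → y ≤ z := by
    intro x
    obtain ⟨y, ⟨hyx, hy⟩, -, hm⟩ := exMin hF (S := fun y => y ≤ x ∧ Fr P y x) (s₀ := x)
      ⟨le_rfl, fun a b ha hb hab => absurd ((hb.trans ha).trans_lt (hP.1 a b hab).lt) (lt_irrefl b)⟩
    refine ⟨y, hyx, hy, fun z hzx hz => ?_⟩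
    have h1 : Fr P (z ⊓ y) z := F2a hP (F1 hy le_rfl (sup_le hzx hyx))
    have h2 := hm (z ⊓ y) ⟨inf_le_left.trans hzx, F3 hP inf_le_left hzx h1 hz⟩ inf_le_right
    rw [← h2]
    exact inf_le_left
  choose φ hle hFr hmin using ex
  have G : ∀ x y, x ≤ y → Fr P x y → φ x = φ y := by
    intro x y hxy h
    apply le_antisymm
    · have h1 : φ y ≤ φ x := hmin y _ ((hle x).trans hxy) (F3 hP (hle x) hxy (hFr x) h)
      exact hmin x _ (h1.trans (hle x)) (F1 (hFr y) le_rfl hxy)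
    · exact hmin y _ ((hle x).trans hxy) (F3 hP (hle x) hxy (hFr x) h)
  have mono : ∀ x y, x ≤ y → φ x ≤ φ y := by
    intro x y hxy
    have h1 : Fr P (x ⊓ φ y) x := F2a hP (F1 (hFr y) le_rfl (sup_le hxy (hle y)))
    exact (hmin x _ inf_le_left h1).trans inf_le_right
  refine ⟨φ, ⟨hle, fun x => G _ _ (hle x) (hFr x), fun x y => ?_, fun x y => ?_⟩, hFr,
    fun x y h1 h2 => hmin x y h1 h2, fun θ hθ x => ?_⟩
  · apply le_antisymm
    · have h1 : Fr P (φ x ⊔ y) (x ⊔ y) := by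
        have h2 : Fr P (φ x ⊔ y) (x ⊔ (φ x ⊔ y)) :=
          F2b hP (F1 (hFr x) (le_inf (hle x) le_sup_left) le_rfl)
        rwa [← sup_assoc, sup_eq_left.2 (hle x)] at h2
      have h3 : Fr P (φ x ⊔ φ y) (φ x ⊔ y) := by
        have h2 : Fr P (φ x ⊔ φ y) (y ⊔ (φ x ⊔ φ y)) :=
          F2b hP (F1 (hFr y) (le_inf (hle y) le_sup_right) le_rfl)
        rwa [sup_left_comm, sup_eq_left.2 (hle y)] at h2
      exact hmin _ _ (sup_le_sup (hle x) (hle y))
        (F3 hP (sup_le_sup_left (hle y) _) (sup_le_sup_right (hle x) _) h3 h1)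
    · exact sup_le (mono _ _ le_sup_left) (mono _ _ le_sup_right)
  · symm
    refine G _ _ (inf_le_inf (hle x) (hle y)) ?_
    have h1 : Fr P (φ x ⊓ y) (x ⊓ y) := by
      have h2 : Fr P ((x ⊓ y) ⊓ φ x) (x ⊓ y) :=
        F2a hP (F1 (hFr x) le_rfl (sup_le inf_le_left (hle x)))
      have e : (x ⊓ y) ⊓ φ x = φ x ⊓ y := by
        rw [inf_right_comm, inf_eq_right.2 (hle x)]
      rwa [e] at h2
    have h3 : Fr P (φ x ⊓ φ y) (φ x ⊓ y) := by
      have h2 : Fr P ((φ x ⊓ y) ⊓ φ y) (φ x ⊓ y) :=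
        F2a hP (F1 (hFr y) le_rfl (sup_le inf_le_right (hle y)))
      have e : (φ x ⊓ y) ⊓ φ y = φ x ⊓ φ y := by
        rw [inf_assoc, inf_eq_right.2 (hle y)]
      rwa [e] at h2
    exact F3 hP (inf_le_inf_left _ (hle y)) (inf_le_inf_right _ (hle x)) h3 h1
  · apply le_antisymm
    · refine hmin _ _ (θ.monotone (hle x)) fun a b ha hb hab => ?_
      refine hFr x (θ.symm a) (θ.symm b) ?_ ?_ ?_
      · rw [θ.le_symm_apply]; exact ha
      · rw [θ.symm_apply_le]; exact hb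
      · rw [hθ, θ.apply_symm_apply, θ.apply_symm_apply]; exact hab
    · rw [← θ.le_symm_apply]
      refine hmin x _ ?_ fun a b ha hb hab => ?_
      · rw [θ.symm_apply_le]; exact hle _
      · refine hFr (θ x) (θ a) (θ b) ?_ (θ.monotone hb) ((hθ a b).1 hab)
        rw [← θ.symm_apply_le]; exact ha

end MP81M
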