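import Mathlib

/-!
# MP_81b71e_al, modular lattices: definitions
-/

set_option autoImplicit false

namespace MP81M

universe u

/-- every element has finite height -/
def Fh (K : Type u) [Preorder K] : Prop := ∀ x : K, Order.height x ≠ ⊤

/-- the prime quotient `q` is obtained from the prime quotient `p` by transposing up -/
def Tr {K : Type u} [Lattice K] (p q : K × K) : Prop :=
  p.1 ⋖ p.2 ∧ q.1 ⋖ q.2 ∧ p.2 ⊓ q.1 = p.1 ∧ p.2 ⊔ q.1 = q.2

/-- projective prime quotients -/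
def Pj {K : Type u} [Lattice K] (p q : K × K) : Prop := Relation.EqvGen Tr p q

/-- `a`, `b`, `c` are three different elements which cover `z`, `c` is below `a ⊔ b` -/
def Dia {K : Type u} [Lattice K] (z a b c : K) : Prop :=
  z ⋖ a ∧ z ⋖ b ∧ z ⋖ c ∧ a ≠ b ∧ a ≠ c ∧ b ≠ c ∧ c ≤ a ⊔ b

/-- If two different elements cover `z` and the prime quotients are projective then their join
contains a third element which covers `z`. -/
def Thk (K : Type u) [Lattice K] : Prop :=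
  ∀ z a b : K, z ⋖ a → z ⋖ b → a ≠ b → Pj (z, a) (z, b) → ∃ c, Dia z a b c

/-- the condition on the involution -/
def Dm {K : Type u} [Lattice K] (θ : K ≃o K) : Prop :=
  ∀ z a b c : K, Dia z a b c → a ⊔ b = z ⊔ ((a ⊔ b) ⊓ θ (a ⊔ b))

/-- a set of prime quotients which is closed under projectivity -/
def Cl {K : Type u} [Lattice K] (P : K → K → Prop) : Prop :=
  (∀ a b, P a b → a ⋖ b) ∧ ∀ p q : K × K, Tr p q → (P p.1 p.2 ↔ P q.1 q.2)

/-- the interval from `x` to `y` contains no member of `P` -/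
def Fr {K : Type u} [Lattice K] (P : K → K → Prop) (x y : K) : Prop :=
  ∀ a b, x ≤ a → b ≤ y → ¬ P a b

/-- `φ x` is the least element of the congruence class of `x` -/
structure Krn {K : Type u} [Lattice K] (φ : K → K) : Prop where
  le : ∀ x, φ x ≤ x
  idem : ∀ x, φ (φ x) = φ x
  sup : ∀ x y, φ (x ⊔ y) = φ x ⊔ φ y
  inf : ∀ x y, φ (x ⊓ y) = φ (φ x ⊓ φ y)

theorem Krn.mono {K : Type u} [Lattice K] {φ : K → K} (h : Krn φ) {x y : K} (hxy : x ≤ y) :
    φ x ≤ φ y := by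
  have h1 := h.sup x y
  rw [sup_eq_right.2 hxy] at h1
  rw [h1]
  exact le_sup_left

/-- the image of `φ` -/
def Vk {K : Type u} [Lattice K] (φ : K → K) (_ : Krn φ) : Type u := {x : K // φ x = x}

namespace Vk

variable {K : Type u} [Lattice K] {φ : K → K} {h : Krn φ}

/-- the homomorphism `φ` onto its image -/
def mk (x : K) : Vk φ h := ⟨φ x, h.idem x⟩

instance : PartialOrder (Vk φ h) := inferInstanceAs (PartialOrder {x : K // φ x = x})

instance : Lattice (Vk φ h) where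
  sup x y := ⟨x.1 ⊔ y.1, by rw [h.sup, x.2, y.2]⟩
  le_sup_left x y := by
    show x.1 ≤ x.1 ⊔ y.1
    exact le_sup_left
  le_sup_right x y := by
    show y.1 ≤ x.1 ⊔ y.1
    exact le_sup_right
  sup_le x y z h1 h2 := by
    show x.1 ⊔ y.1 ≤ z.1
    exact sup_le h1 h2
  inf x y := ⟨φ (x.1 ⊓ y.1), h.idem _⟩
  inf_le_left x y := by
    show φ (x.1 ⊓ y.1) ≤ x.1
    exact (h.le _).trans inf_le_left
  inf_le_right x y := by
    show φ (x.1 ⊓ y.1) ≤ y.1
    exact (h.le _).trans inf_le_right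
  le_inf x y z h1 h2 := by
    show x.1 ≤ φ (y.1 ⊓ z.1)
    have h3 : x.1 ≤ y.1 ⊓ z.1 := le_inf h1 h2
    have h4 := h.mono h3
    rwa [x.2] at h4

theorem coe_sup (x y : Vk φ h) : (x ⊔ y).1 = x.1 ⊔ y.1 := rfl

theorem coe_inf (x y : Vk φ h) : (x ⊓ y).1 = φ (x.1 ⊓ y.1) := rfl

theorem le_def (x y : Vk φ h) : x ≤ y ↔ x.1 ≤ y.1 := Iff.rfl

instance [OrderBot K] : OrderBot (Vk φ h) where
  bot := ⟨⊥, le_bot_iff.1 (h.le ⊥)⟩
  bot_le x := by
    show ⊥ ≤ x.1
    exact bot_le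

theorem coe_bot [OrderBot K] : (⊥ : Vk φ h).1 = ⊥ := rfl

theorem ext {x y : Vk φ h} (hxy : x.1 = y.1) : x = y := Subtype.ext hxy

theorem mk_sup (x y : K) : (mk (x ⊔ y) : Vk φ h) = mk x ⊔ mk y := ext (h.sup x y)

theorem mk_inf (x y : K) : (mk (x ⊓ y) : Vk φ h) = mk x ⊓ mk y := ext (h.inf x y)

theorem mk_coe (x : Vk φ h) : mk x.1 = x := ext x.2

/-- the automorphism of the image which is induced by an automorphism which commutes with `φ` -/
def th (θ : K ≃o K) (hc : ∀ x, φ (θ x) = θ (φ x)) : Vk φ h ≃o Vk φ h where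
  toFun x := ⟨θ x.1, by rw [hc, x.2]⟩
  invFun x := ⟨θ.symm x.1, by
    apply θ.injective
    rw [← hc, θ.apply_symm_apply, x.2]⟩
  left_inv x := ext (θ.symm_apply_apply x.1)
  right_inv x := ext (θ.apply_symm_apply x.1)
  map_rel_iff' {x y} := by
    show θ x.1 ≤ θ y.1 ↔ x.1 ≤ y.1
    exact θ.le_iff_le

theorem coe_th (θ : K ≃o K) (hc : ∀ x, φ (θ x) = θ (φ x)) (x : Vk φ h) :
    (th θ hc x).1 = θ x.1 := rfl

end Vk

/-- `j` has the only lower cover `i` -/
def Ji {K : Type u} [Lattice K] (i j : K) : Prop := i ⋖ j ∧ ∀ y, y < j → y ≤ i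

/-- a decreasing join endomorphism which commutes with `θ` -/
structure Ctr {K : Type u} [Lattice K] (θ : K ≃o K) (ψ : K → K) : Prop where
  le : ∀ x, ψ x ≤ x
  sup : ∀ x y, ψ (x ⊔ y) = ψ x ⊔ ψ y
  comm : ∀ x, ψ (θ x) = θ (ψ x)

/-- the operators of theorem K* -/
structure Good {K : Type u} [Lattice K] [OrderBot K] (θ : K ≃o K) (φ : K → K) : Prop
    extends Ctr θ φ where
  idem : ∀ x, φ (φ x) = φ x
  low : ∀ x y, φ x = x → φ y = y → θ x ≠ x → y < x → y ≠ ⊥ →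
    y ≤ θ x ∧ ∃ ψ : K → K, Ctr θ ψ ∧ y ≤ ψ x ∧ θ (ψ x) = ψ x

end MP81M
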