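import Pool.Agent.Lib.MP_81b71e_M.Spec

/-!
# MP_81b71e_al, modular lattices: if the top of a diamond is symmetric then the bottom is symmetric
-/

set_option autoImplicit false

namespace MP81M

universe u

namespace Dm2Aux

variable {L : Type u} [Lattice L] [IsModularLattice L]

/-- transposing one chain of a diamond down to the interval below `u` -/
theorem transpose {z m u x : L} (h : z ⊔ u = m) (hzx : z ⋖ x) (hxm : x ⋖ m) :
    z ⊓ u ⋖ x ⊓ u ∧ x ⊓ u ⋖ u ∧ z ⊔ (x ⊓ u) = x := by
  have h1 : z ⊔ (x ⊓ u) = x := by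
    rw [inf_comm, ← sup_inf_assoc_of_le u hzx.le, h]
    exact inf_eq_right.2 hxm.le
  have h2 : z ⊓ (x ⊓ u) = z ⊓ u := by
    rw [← inf_assoc, inf_eq_left.2 hzx.le]
  have hum : u ≤ m := by rw [← h]; exact le_sup_right
  have h3 : x ⊔ u = m := by
    apply le_antisymm (sup_le hxm.le hum)
    rw [← h]
    exact sup_le_sup_right hzx.le u
  refine ⟨?_, ?_, h1⟩
  · have h4 : z ⋖ z ⊔ (x ⊓ u) := by rw [h1]; exact hzx
    have h5 := h4.inf_of_sup_left
    rwa [h2] at h5
  · have h4 : x ⋖ x ⊔ u := by rw [h3]; exact hxm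
    exact h4.inf_of_sup_left

omit [IsModularLattice L] in
/-- two different elements which cover `z` meet in `z` -/
theorem inf_eq {z x y : L} (hx : z ⋖ x) (hy : z ⋖ y) (hxy : x ≠ y) : x ⊓ y = z := by
  rcases hx.eq_or_eq (le_inf hx.le hy.le) inf_le_left with h | h
  · exact h
  · exfalso
    have h2 : x ≤ y := by
      rw [← h]
      exact inf_le_right
    rcases hy.eq_or_eq hx.le h2 with h3 | h3
    · exact hx.ne h3.symm
    · exact hxy h3

theorem cov_sup {z x y : L} (hx : z ⋖ x) (hy : z ⋖ y) (hxy : x ≠ y) : x ⋖ x ⊔ y := by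
  have h : x ⊓ y ⋖ y := by rw [inf_eq hx hy hxy]; exact hy
  exact covBy_sup_of_inf_covBy_right h

/-- a diamond which is given by its five elements -/
theorem dia {θ : L ≃o L} (hθ : ∀ x, θ (θ x) = x) (hD : Dm θ) {z a b c m : L} (hza : z ⋖ a)
    (hzb : z ⋖ b) (hzc : z ⋖ c) (ham : a ⋖ m) (hbm : b ⋖ m) (hcm : c ⋖ m) (hab : a ≠ b)
    (hac : a ≠ c) (hbc : b ≠ c) : ∃ κ, θ κ = κ ∧ z ⊔ κ = m := by
  have h1 : a ⊔ b = m := by
    rcases ham.eq_or_eq (le_sup_left : a ≤ a ⊔ b) (sup_le ham.le hbm.le) with h | h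
    · exact absurd h.symm (cov_sup hza hzb hab).ne
    · exact h
  have h2 : Dia z a b c := ⟨hza, hzb, hzc, hab, hac, hbc, by rw [h1]; exact hcm.le⟩
  refine ⟨m ⊓ θ m, ?_, ?_⟩
  · rw [map_inf, hθ, inf_comm]
  · have h3 := hD z a b c h2
    rw [h1] at h3
    exact h3.symm

end Dm2Aux

open Dm2Aux in
theorem tDm2 (_h1 : S_Trp.{u}) : S_Dm2.{u} := by
  intro L _ _ θ hθ hD z a b c hd hm'
  obtain ⟨hza, hzb, hzc, hab, hac, hbc, hcm'⟩ := hd
  obtain ⟨m, hmdef⟩ : ∃ m, m = a ⊔ b := ⟨_, rfl⟩
  rw [← hmdef] at hm' hcm'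
  have hm : θ m = m := hm'
  have ham : a ⋖ m := by rw [hmdef]; exact cov_sup hza hzb hab
  have hbm : b ⋖ m := by rw [hmdef, sup_comm]; exact cov_sup hzb hza hab.symm
  have hcm : c ⋖ m := by
    have h1 : a ⊔ c = m := by
      rcases ham.eq_or_eq (le_sup_left : a ≤ a ⊔ c) (sup_le ham.le hcm') with h | h
      · exact absurd h.symm (cov_sup hza hzc hac).ne
      · exact h
    rw [← h1, sup_comm]
    exact cov_sup hzc hza hac.symm
  have hcov : ∀ {x y : L}, x ⋖ y → θ x ⋖ θ y := fun h => (apply_covBy_apply_iff θ).2 h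
  by_contra hne
  have hzm : z ≤ m := hza.le.trans ham.le
  have hθzm : θ z ≤ m := by
    rw [← hm]
    exact θ.monotone hzm
  have hnle : ¬ θ z ≤ z := by
    intro h
    apply hne
    apply le_antisymm h
    have h1 := θ.monotone h
    rwa [hθ] at h1
  -- the main step: if `θ z ⊔ x = m` for a middle element `x`, then `x` is fixed
  have hfixmid : ∀ {x : L}, z ⋖ x → x ⋖ m → θ z ⊔ x = m → z ⊓ θ z = θ z ⊓ x → θ x = x := by
    intro x hx hxm h hf
    have e1 := transpose h (hcov hza) (by rw [← hm]; exact hcov ham)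
    have e2 := transpose h (hcov hzb) (by rw [← hm]; exact hcov hbm)
    have e3 := transpose h (hcov hzc) (by rw [← hm]; exact hcov hcm)
    have hinj : ∀ {p q : L}, θ z ⊔ (θ p ⊓ x) = θ p → θ z ⊔ (θ q ⊓ x) = θ q → p ≠ q →
        θ p ⊓ x ≠ θ q ⊓ x := by
      intro p q hp hq hpq h4
      apply hpq
      apply θ.injective
      rw [← hp, h4, hq]
    obtain ⟨κ, hκ, h5⟩ := dia hθ hD e1.1 e2.1 e3.1 e1.2.1 e2.2.1 e3.2.1
      (hinj e1.2.2 e2.2.2 hab) (hinj e1.2.2 e3.2.2 hac) (hinj e2.2.2 e3.2.2 hbc)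
    rw [← h5, ← hf, map_sup, map_inf, hθ, hκ, inf_comm]
  by_cases hn : z ⊔ θ z = m
  · have e1 := transpose hn hza ham
    have e2 := transpose hn hzb hbm
    have e3 := transpose hn hzc hcm
    have hinj : ∀ {p q : L}, z ⊔ (p ⊓ θ z) = p → z ⊔ (q ⊓ θ z) = q → p ≠ q →
        p ⊓ θ z ≠ q ⊓ θ z := by
      intro p q hp hq hpq h4
      apply hpq
      rw [← hp, h4, hq]
    obtain ⟨κ, hκ, h5⟩ := dia hθ hD e1.1 e2.1 e3.1 e1.2.1 e2.2.1 e3.2.1
      (hinj e1.2.2 e2.2.2 hab) (hinj e1.2.2 e3.2.2 hac) (hinj e2.2.2 e3.2.2 hbc)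
    have h6 : κ ≤ θ z := by
      rw [← h5]
      exact le_sup_right
    have h7 : κ ≤ z := by
      have h8 := θ.monotone h6
      rwa [hθ, hκ] at h8
    apply hnle
    rw [← h5]
    exact sup_le inf_le_left h7
  · -- `n = z ⊔ θ z` is strictly between `z` and `m`
    set n := z ⊔ θ z with hndef
    have hnm : n ≤ m := sup_le hzm hθzm
    have hmid : ∀ {x : L}, z ⋖ x → x ⋖ m → x ≠ n → θ x = x := by
      intro x hx hxm hxn
      have h1 : ¬ n ≤ x := by
        intro h
        rcases hx.eq_or_eq le_sup_left h with h2 | h2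
        · apply hnle
          calc θ z ≤ z ⊔ θ z := le_sup_right
            _ = z := h2
        · exact hxn h2.symm
      have h2 : x ⊔ θ z = m := by
        have h3 : x < x ⊔ θ z := by
          apply lt_of_le_of_ne le_sup_left
          intro h4
          apply h1
          apply sup_le hx.le
          rw [h4]
          exact le_sup_right
        rcases hxm.eq_or_eq h3.le (sup_le hxm.le hθzm) with h4 | h4
        · exact absurd h4.symm h3.ne
        · exact h4
      apply hfixmid hx hxm (by rw [sup_comm]; exact h2)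
      -- `x ⊓ θ z = z ⊓ θ z`
      have h5 : n ⊓ x = z := by
        rcases hx.eq_or_eq (le_inf le_sup_left hx.le) inf_le_right with h6 | h6
        · exact h6
        · exfalso
          have h7 : x ≤ n := by
            rw [← h6]
            exact inf_le_left
          rcases hxm.eq_or_eq h7 hnm with h8 | h8
          · exact hxn h8.symm
          · exact hn h8
      apply le_antisymm
      · exact le_inf inf_le_right (inf_le_left.trans hx.le)
      · have h9 : θ z ⊓ x ≤ n ⊓ x := inf_le_inf_right x le_sup_right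
        rw [h5] at h9
        exact le_inf h9 inf_le_left
    have hfin : ∀ {x y : L}, z ⋖ x → z ⋖ y → x ⋖ m → y ⋖ m → x ≠ y → x ≠ n → y ≠ n →
        False := by
      intro x y hx hy hxm hym hxy hxn hyn
      apply hne
      rw [← inf_eq hx hy hxy, map_inf, hmid hx hxm hxn, hmid hy hym hyn]
    by_cases han : a = n
    · have hbn : b ≠ n := fun h => hab (han.trans h.symm)
      have hcn : c ≠ n := fun h => hac (han.trans h.symm)
      exact hfin hzb hzc hbm hcm hbc hbn hcn
    · by_cases hbn : b = n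
      · have hcn : c ≠ n := fun h => hbc (hbn.trans h.symm)
        exact hfin hza hzc ham hcm hac han hcn
      · exact hfin hza hzb ham hbm hab han hbn

end MP81M
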