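import Pool.Agent.Lib.MP_81b71e_M.Spec

/-!
# MP_81b71e_al, modular lattices: enough operators (`S_Enu`)
-/

set_option autoImplicit false

namespace MP81M

universe u

namespace EnuAux

variable {K : Type u} [Lattice K]

theorem hlt (hF : Fh K) {x y : K} (h : x < y) :
    (Order.height x).toNat < (Order.height y).toNat := by
  have h1 : Order.height x < Order.height y :=
    Order.height_strictMono h (lt_top_iff_ne_top.2 (hF x))
  have h2 : ((Order.height x).toNat : ℕ∞) < ((Order.height y).toNat : ℕ∞) := by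
    rw [ENat.natCast_toNat (hF x), ENat.natCast_toNat (hF y)]
    exact h1
  exact_mod_cast h2

theorem exists_cov (hF : Fh K) {x : K} : ∀ (n : ℕ) (y : K),
    (Order.height x).toNat - (Order.height y).toNat ≤ n → y < x → ∃ b, y ≤ b ∧ b ⋖ x := by
  intro n
  induction n with
  | zero =>
    intro y hn h
    have := hlt hF h
    omega
  | succ n ih =>
    intro y hn h
    by_cases hc : y ⋖ x
    · exact ⟨y, le_rfl, hc⟩
    · rw [CovBy] at hc
      push Not at hc
      obtain ⟨c, hyc, hcx⟩ := hc h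
      have h1 := hlt hF hyc
      have h2 := hlt hF hcx
      obtain ⟨b, hb, hbx⟩ := ih c (by omega) hcx
      exact ⟨b, hyc.le.trans hb, hbx⟩

theorem mono {θ : K ≃o K} {φ : K → K} (h : Ctr θ φ) {x y : K} (hxy : x ≤ y) : φ x ≤ φ y := by
  have h1 := h.sup x y
  rw [sup_eq_right.2 hxy] at h1
  rw [h1]
  exact le_sup_left

end EnuAux

open EnuAux in
/-- **Enu**. -/
theorem tEnu (hPri : S_Pri.{u}) (hThi : S_Thi.{u}) : S_Enu.{u} := by
  intro K _ _ _ hF hK θ hθ hD
  classical
  have key : ∀ (n : ℕ) (x : K), (Order.height x).toNat ≤ n → ∃ T : Finset (K → K),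
      (∀ φ ∈ T, Good θ φ) ∧ x ≤ T.sup (fun φ => φ x) := by
    intro n
    induction n using Nat.strong_induction_on with
    | _ n ih =>
    intro x hn
    by_cases hx : x = ⊥
    · exact ⟨∅, by simp, by rw [hx]; exact bot_le⟩
    obtain ⟨i, -, hi⟩ := exists_cov hF _ ⊥ le_rfl (bot_lt_iff_ne_bot.2 hx)
    by_cases hJ : ∀ y, y < x → y ≤ i
    · have hφ : ∃ φ : K → K, Good θ φ ∧ φ x = x := by
        by_cases hp : ∀ a b, x ≤ a ⊔ b → x ≤ a ∨ x ≤ b
        · exact hPri K θ hθ x hp
        · push Not at hp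
          obtain ⟨a, b, h1, h2, h3⟩ := hp
          exact hThi K hF hK θ hθ hD i x ⟨hi, hJ⟩ ⟨a, b, h1, h2, h3⟩
      obtain ⟨φ, hg, hx'⟩ := hφ
      refine ⟨{φ}, by simpa using hg, ?_⟩
      rw [Finset.sup_singleton, hx']
    · push Not at hJ
      obtain ⟨y, hy, hyi⟩ := hJ
      have hxy : i ⊔ y = x := by
        have h1 : i < i ⊔ y := left_lt_sup.2 hyi
        have h2 : i ⊔ y ≤ x := sup_le hi.le hy.le
        by_contra hne
        exact hi.2 h1 (lt_of_le_of_ne h2 hne)
      have hi' := hlt hF hi.lt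
      have hy' := hlt hF hy
      obtain ⟨T₁, hT₁, h1⟩ := ih (Order.height i).toNat (by omega) i le_rfl
      obtain ⟨T₂, hT₂, h2⟩ := ih (Order.height y).toNat (by omega) y le_rfl
      refine ⟨T₁ ∪ T₂, fun φ hφ => ?_, ?_⟩
      · rcases Finset.mem_union.1 hφ with h | h
        · exact hT₁ φ h
        · exact hT₂ φ h
      · rw [Finset.sup_union]
        have e1 : T₁.sup (fun φ => φ i) ≤ T₁.sup (fun φ => φ x) :=
          Finset.sup_mono_fun fun φ hφ => mono (hT₁ φ hφ).toCtr hi.le
        have e2 : T₂.sup (fun φ => φ y) ≤ T₂.sup (fun φ => φ x) :=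
          Finset.sup_mono_fun fun φ hφ => mono (hT₂ φ hφ).toCtr hy.le
        calc x = i ⊔ y := hxy.symm
          _ ≤ _ := sup_le_sup (h1.trans e1) (h2.trans e2)
  intro x
  exact key _ x le_rfl

end MP81M
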