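import Pool.Agent.Lib.MP_81b71e_M.Spec

/-!
# MP_81b71e_al, modular lattices: the meet of the lower covers is a join endomorphism
-/

set_option autoImplicit false

namespace MP81M

universe u

namespace FraAux

variable {K : Type u} [Lattice K]

theorem wf (hF : Fh K) : WellFounded ((· < ·) : K → K → Prop) := by
  have h : Subrelation ((· < ·) : K → K → Prop) (InvImage (· < ·) fun x : K => Order.height x) := by
    intro x y hxy
    exact Order.height_strictMono hxy (lt_top_iff_ne_top.2 (hF x))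
  exact Subrelation.wf h (InvImage.wf _ wellFounded_lt)

/-- minimal elements -/
theorem exMin (hF : Fh K) {S : K → Prop} {s₀ : K} (h₀ : S s₀) :
    ∃ s, S s ∧ s ≤ s₀ ∧ ∀ t, S t → t ≤ s → t = s := by
  obtain ⟨s, ⟨hs, hs0⟩, hm⟩ := (wf hF).has_min {s | S s ∧ s ≤ s₀} ⟨s₀, h₀, le_rfl⟩
  refine ⟨s, hs, hs0, fun t ht hts => ?_⟩
  by_contra hne
  exact hm t ⟨ht, hts.trans hs0⟩ (lt_of_le_of_ne hts hne)

/-- maximal elements of bounded sets -/
theorem exMax (hF : Fh K) {S : K → Prop} {x s₀ : K} (hS : ∀ s, S s → s ≤ x) (h₀ : S s₀) :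
    ∃ s, S s ∧ s₀ ≤ s ∧ ∀ t, S t → s ≤ t → t = s := by
  obtain ⟨s, ⟨hs, hs0⟩, hm⟩ := (InvImage.wf (fun s : K => (Order.height x).toNat - (Order.height s).toNat)
    (wellFounded_lt (α := ℕ))).has_min {s | S s ∧ s₀ ≤ s} ⟨s₀, h₀, le_rfl⟩
  refine ⟨s, hs, hs0, fun t ht hst => ?_⟩
  by_contra hne
  refine hm t ⟨ht, hs0.trans hst⟩ ?_
  have h1 : Order.height s < Order.height t :=
    Order.height_strictMono (lt_of_le_of_ne hst fun h => hne h.symm) (lt_top_iff_ne_top.2 (hF s))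
  have h2 : Order.height t ≤ Order.height x := Order.height_mono (hS t ht)
  obtain ⟨a, ha⟩ := ENat.ne_top_iff_exists.1 (hF s)
  obtain ⟨b, hb⟩ := ENat.ne_top_iff_exists.1 (hF t)
  obtain ⟨c, hc⟩ := ENat.ne_top_iff_exists.1 (hF x)
  rw [← ha, ← hb] at h1
  rw [← hb, ← hc] at h2
  show (Order.height x).toNat - (Order.height t).toNat < (Order.height x).toNat - (Order.height s).toNat
  rw [← ha, ← hb, ← hc]
  have h3 : a < b := by exact_mod_cast h1
  have h4 : b ≤ c := by exact_mod_cast h2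
  simp only [ENat.toNat_coe]
  omega

/-- `y ≤ a ⋖ x` -/
theorem exCo (hF : Fh K) {y x : K} (h : y < x) : ∃ a, y ≤ a ∧ a ⋖ x := by
  obtain ⟨s, hs, hys, hm⟩ := exMax hF (S := fun s => s < x) (fun s hs => hs.le) h
  refine ⟨s, hys, hs, fun t h1 h2 => ?_⟩
  exact h1.ne' (hm t h2 h1.le)

/-- the elements below all lower covers -/
def Z (x z : K) : Prop := z ≤ x ∧ ∀ w, w ⋖ x → z ≤ w

theorem exZ [OrderBot K] (hF : Fh K) (x : K) : ∃ g, Z x g ∧ ∀ z, Z x z → z ≤ g := by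
  obtain ⟨g, hg, -, hm⟩ := exMax hF (S := Z x) (s₀ := ⊥) (fun s hs => hs.1) ⟨bot_le, fun _ _ => bot_le⟩
  refine ⟨g, hg, fun z hz => ?_⟩
  have h1 : Z x (g ⊔ z) := ⟨sup_le hg.1 hz.1, fun w hw => sup_le (hg.2 w hw) (hz.2 w hw)⟩
  have h2 := hm _ h1 le_sup_left
  rw [← h2]
  exact le_sup_right

variable [IsModularLattice K] {Φ : K → K}

theorem mono (h1 : ∀ x, Z x (Φ x)) (h2 : ∀ x z, Z x z → z ≤ Φ x) {x y : K} (hxy : x ≤ y) :
    Φ x ≤ Φ y := by
  refine h2 y _ ⟨(h1 x).1.trans hxy, fun w hw => ?_⟩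
  by_cases hxw : x ≤ w
  · exact (h1 x).1.trans hxw
  have h3 : x ⊔ w = y := by
    have h4 : w < x ⊔ w := lt_of_le_of_ne le_sup_right fun h => hxw (by rw [h]; exact le_sup_left)
    by_contra hne
    exact hw.2 h4 (lt_of_le_of_ne (sup_le hxy hw.le) hne)
  have h5 : w ⋖ x ⊔ w := by rw [h3]; exact hw
  exact ((h1 x).2 _ (inf_covBy_of_covBy_sup_right h5)).trans inf_le_right

theorem fact (hF : Fh K) (h2 : ∀ x z, Z x z → z ≤ Φ x) {e x : K} (he : e < x) :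
    ∃ r, r ≤ x ∧ ¬ r ≤ e ∧ r ⊓ e ≤ Φ x := by
  obtain ⟨r, hr, hrx, hm⟩ := exMin hF (S := fun r => r ⊔ e = x) (s₀ := x) (sup_eq_left.2 he.le)
  refine ⟨r, hrx, ?_, ?_⟩
  · intro h
    rw [sup_eq_right.2 h] at hr
    exact he.ne hr
  · refine h2 x _ ⟨inf_le_left.trans hrx, fun w hw => ?_⟩
    by_contra hn
    have h3 : w ⊔ (r ⊓ e) = x := by
      have h4 : w < w ⊔ (r ⊓ e) := lt_of_le_of_ne le_sup_left fun h => hn (by rw [h]; exact le_sup_right)
      by_contra hne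
      exact hw.2 h4 (lt_of_le_of_ne (sup_le hw.le (inf_le_left.trans hrx)) hne)
    have h5 : r ⊓ w ⊔ r ⊓ e = r := by
      rw [inf_sup_assoc_of_le w (inf_le_left : r ⊓ e ≤ r), h3]
      exact inf_eq_left.2 hrx
    have h6 : r ⊓ w ⊔ e = x := by
      apply le_antisymm
      · exact sup_le (inf_le_left.trans hrx) he.le
      · rw [← hr]
        refine sup_le ?_ le_sup_right
        calc r = r ⊓ w ⊔ r ⊓ e := h5.symm
          _ ≤ r ⊓ w ⊔ e := sup_le_sup_left inf_le_right _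
    have h7 := hm _ h6 inf_le_left
    exact hn (inf_le_left.trans (inf_eq_left.1 h7))

theorem sup_le' (hF : Fh K) (h1 : ∀ x, Z x (Φ x)) (h2 : ∀ x z, Z x z → z ≤ Φ x) (x y : K) :
    Φ (x ⊔ y) ≤ Φ x ⊔ Φ y := by
  obtain ⟨m, hm⟩ : ∃ m, m = x ⊔ y := ⟨_, rfl⟩
  obtain ⟨p, hp⟩ : ∃ p, p = Φ x ⊔ Φ y := ⟨_, rfl⟩
  obtain ⟨u, hu⟩ : ∃ u, u = Φ m := ⟨_, rfl⟩
  rw [← hm, ← hp, ← hu]
  have hxm : x ≤ m := by rw [hm]; exact le_sup_left
  have hym : y ≤ m := by rw [hm]; exact le_sup_right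
  have hum : u ≤ m := by rw [hu]; exact (h1 m).1
  have hpm : p ≤ m := by rw [hp]; exact sup_le ((h1 x).1.trans hxm) ((h1 y).1.trans hym)
  obtain ⟨c, ⟨hcm, hpc, hcu⟩, -, hc⟩ := exMax hF (S := fun c => c ≤ m ∧ p ≤ c ∧ c ⊓ u ≤ p) (s₀ := p)
    (fun s hs => hs.1) ⟨hpm, le_rfl, inf_le_left⟩
  have key : ∀ x', x' ≤ m → Φ x' ≤ p → x' ≤ c ⊔ u := by
    intro x' hx' hΦ
    by_contra hn
    have he : x' ⊓ (c ⊔ u) < x' := lt_of_le_of_ne inf_le_left fun h => hn (inf_eq_left.1 h)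
    obtain ⟨r, hrx, hre, hr⟩ := fact hF h2 he
    have h3 : r ⊓ (c ⊔ u) ≤ p := by
      refine le_trans (le_trans ?_ hr) hΦ
      exact le_inf inf_le_left (le_inf (inf_le_left.trans hrx) inf_le_right)
    have h4 : (c ⊔ r) ⊓ u ≤ c := by
      calc (c ⊔ r) ⊓ u ≤ (c ⊔ r) ⊓ (c ⊔ u) := inf_le_inf_left _ le_sup_right
        _ = c ⊔ r ⊓ (c ⊔ u) := sup_inf_assoc_of_le r le_sup_left
        _ ≤ c := sup_le le_rfl (h3.trans hpc)
    have h5 := hc (c ⊔ r) ⟨sup_le hcm (hrx.trans hx'), hpc.trans le_sup_left,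
      (le_inf h4 inf_le_right).trans hcu⟩ le_sup_left
    have h6 : r ≤ c := by rw [← h5]; exact le_sup_right
    exact hre (le_inf hrx (h6.trans le_sup_left))
  have hcum : c ⊔ u = m := by
    apply le_antisymm (sup_le hcm hum)
    rw [hm]
    refine sup_le (key x hxm ?_) (key y hym ?_)
    · rw [hp]; exact le_sup_left
    · rw [hp]; exact le_sup_right
  by_cases hcm' : c = m
  · rw [hcm', inf_eq_right.2 hum] at hcu
    exact hcu
  · exfalso
    obtain ⟨d, hcd, hdm⟩ := exCo hF (lt_of_le_of_ne hcm hcm')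
    have h3 : u ≤ d := by rw [hu]; exact (h1 m).2 d hdm
    have h4 : m ≤ d := by rw [← hcum]; exact sup_le hcd h3
    exact absurd (lt_of_le_of_lt h4 hdm.lt) (lt_irrefl m)

end FraAux

open FraAux in
theorem tFra : S_Fra.{u} := by
  intro M _ _ _ hF
  choose Φ h1 h2 using fun x => exZ hF x
  refine ⟨Φ, fun θ => ⟨fun x => (h1 x).1, fun x y => ?_, fun x => ?_⟩, fun s t hst => ?_⟩
  · exact le_antisymm (sup_le' hF h1 h2 x y)
      (sup_le (mono h1 h2 le_sup_left) (mono h1 h2 le_sup_right))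
  · apply le_antisymm
    · rw [← θ.symm_apply_le]
      refine h2 x _ ⟨?_, fun w hw => ?_⟩
      · rw [θ.symm_apply_le]
        exact (h1 _).1
      · rw [θ.symm_apply_le]
        exact (h1 _).2 _ ((apply_covBy_apply_iff θ).2 hw)
    · refine h2 _ _ ⟨θ.monotone (h1 x).1, fun w hw => ?_⟩
      rw [← θ.le_symm_apply]
      refine (h1 x).2 _ ?_
      rw [← apply_covBy_apply_iff θ, θ.apply_symm_apply]
      exact hw
  · apply le_antisymm
    · exact (h1 t).2 s hst.1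
    · refine h2 t s ⟨hst.1.le, fun w hw => ?_⟩
      have h3 := hst.2 w hw.lt
      rcases h3.lt_or_eq with h4 | h4
      · exact absurd hst.1.lt (hw.2 h4)
      · exact h4.ge

end MP81M
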