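import Pool.Agent.Lib.MP_81b71e_M.Spec

/-!
# MP_81b71e_al, modular lattices: the projectivity class of a side of a diamond is invariant (helper51)
-/

set_option autoImplicit false

namespace MP81M

universe u

namespace InvAux

variable {K : Type u} [Lattice K]

theorem inf_eq {z a b : K} (ha : z ⋖ a) (hb : z ⋖ b) (hab : a ≠ b) : a ⊓ b = z := by
  rcases ha.eq_or_eq (le_inf ha.le hb.le) inf_le_left with h | h
  · exact h
  · exfalso
    have h1 : a ≤ b := by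
      rw [← h]
      exact inf_le_right
    rcases hb.eq_or_eq ha.le h1 with h2 | h2
    · exact ha.ne h2.symm
    · exact hab h2

theorem sup_eq {z x y w : K} (hx : z ⋖ x) (hy : z ⋖ y) (hxy : x ≠ y) (hxw : x ≤ w) (hyw : y ⋖ w) :
    x ⊔ y = w := by
  rcases hyw.eq_or_eq (le_sup_right : y ≤ x ⊔ y) (sup_le hxw hyw.le) with h | h
  · exfalso
    have h1 : x ≤ y := by
      rw [← h]
      exact le_sup_left
    rcases hy.eq_or_eq hx.le h1 with h2 | h2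
    · exact hx.ne h2.symm
    · exact hxy h2
  · exact h

theorem sup_cov [IsModularLattice K] {z a b : K} (ha : z ⋖ a) (hb : z ⋖ b)
    (hab : a ≠ b) : a ⋖ a ⊔ b := by
  have h := inf_eq ha hb hab
  rw [← h] at hb
  exact covBy_sup_of_inf_covBy_right hb

theorem tr {z x y w : K} (hx : z ⋖ x) (hy : z ⋖ y) (hxy : x ≠ y) (hxw : x ≤ w) (hyw : y ⋖ w) :
    Tr (z, x) (y, w) :=
  ⟨hx, hyw, inf_eq hx hy hxy, sup_eq hx hy hxy hxw hyw⟩

theorem tr_map (θ : K ≃o K) {p q : K × K} (h : Tr p q) : Tr (θ p.1, θ p.2) (θ q.1, θ q.2) := by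
  obtain ⟨h1, h2, h3, h4⟩ := h
  refine ⟨(apply_covBy_apply_iff θ).2 h1, (apply_covBy_apply_iff θ).2 h2, ?_, ?_⟩
  · show θ p.2 ⊓ θ q.1 = θ p.1
    rw [← map_inf, h3]
  · show θ p.2 ⊔ θ q.1 = θ q.2
    rw [← map_sup, h4]

end InvAux

open InvAux in
/-- **Inv** -/
theorem tInv (h1 : S_Trp.{u}) (h2 : S_Dm2.{u}) : S_Inv.{u} := by
  intro K _ _ θ hθ hD z a b c hd
  obtain ⟨v, hv⟩ : ∃ v : K, v = (a ⊔ b) ⊓ θ (a ⊔ b) := ⟨_, rfl⟩
  have hvs : θ v = v := by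
    rw [hv, map_inf, hθ, inf_comm]
  have hzv : z ⊔ v = a ⊔ b := by
    rw [hv]
    exact (hD z a b c hd).symm
  obtain ⟨hd0, htop, hta, -, -⟩ := h1 K z a b c v hd hzv
  obtain ⟨z0, hz0⟩ : ∃ z0 : K, z0 = z ⊓ v := ⟨_, rfl⟩
  obtain ⟨a0, ha0⟩ : ∃ a0 : K, a0 = a ⊓ v := ⟨_, rfl⟩
  obtain ⟨b0, hb0⟩ : ∃ b0 : K, b0 = b ⊓ v := ⟨_, rfl⟩
  obtain ⟨c0, hc0⟩ : ∃ c0 : K, c0 = c ⊓ v := ⟨_, rfl⟩
  rw [← hz0, ← ha0, ← hb0, ← hc0] at hd0
  rw [← ha0, ← hb0] at htop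
  rw [← hz0, ← ha0] at hta
  have hzs : θ z0 = z0 := h2 K θ hθ hD z0 a0 b0 c0 hd0 (by rw [htop]; exact hvs)
  obtain ⟨hza, hzb, hzc, hab, hac, hbc, hcm⟩ := hd0
  rw [htop] at hcm
  have hav : a0 ≤ v := by
    rw [ha0]
    exact inf_le_right
  have hbv : b0 ⋖ v := by
    have h := sup_cov hzb hza hab.symm
    rwa [sup_comm, htop] at h
  have hav' : a0 ⋖ v := by
    have h := sup_cov hza hzb hab
    rwa [htop] at h
  have hcv : c0 ⋖ v := by
    have h := sup_cov hzc hza hac.symm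
    rwa [sup_eq hzc hza hac.symm hcm hav'] at h
  have hzt : z0 ⋖ θ a0 := by
    have h : θ z0 ⋖ θ a0 := (apply_covBy_apply_iff θ).2 hza
    rwa [hzs] at h
  have htv : θ a0 ≤ v := by
    have h := θ.monotone hav
    rwa [hvs] at h
  have key : Pj (z0, a0) (z0, θ a0) := by
    by_cases he : θ a0 = a0
    · rw [he]
      exact Relation.EqvGen.refl _
    · have hy : ∃ y : K, z0 ⋖ y ∧ y ⋖ v ∧ a0 ≠ y ∧ θ a0 ≠ y := by
        by_cases h : θ a0 = b0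
        · exact ⟨c0, hzc, hcv, hac, by rw [h]; exact hbc⟩
        · exact ⟨b0, hzb, hbv, hab, h⟩
      obtain ⟨y, hzy, hyv, hay, hty⟩ := hy
      exact Relation.EqvGen.trans _ _ _ (Relation.EqvGen.rel _ _ (tr hza hzy hay hav hyv))
        (Relation.EqvGen.symm _ _ (Relation.EqvGen.rel _ _ (tr hzt hzy hty htv hyv)))
  have hlast : Tr (z0, θ a0) (θ z, θ a) := by
    have h := tr_map θ hta
    have h' : Tr (θ z0, θ a0) (θ z, θ a) := h
    rwa [hzs] at h'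
  exact Relation.EqvGen.trans _ _ _ (Relation.EqvGen.symm _ _ (Relation.EqvGen.rel _ _ hta))
    (Relation.EqvGen.trans _ _ _ key (Relation.EqvGen.rel _ _ hlast))

end MP81M
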