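import Pool.Agent.Lib.MP_81b71e_M.Spec

set_option autoImplicit false

namespace MP81M

universe u

theorem lft_exists_covBy {K : Type u} [PartialOrder K] (hK : Fh K) {y x : K} (hyx : y < x) :
    ∃ a, y ≤ a ∧ a ⋖ x := by
  classical
  obtain ⟨n, hn⟩ := ENat.ne_top_iff_exists.1 (hK x)
  let S : Set ℕ := {m | ∃ w, y ≤ w ∧ w < x ∧ Order.height w = m}
  have hne : S.Nonempty := by
    obtain ⟨m, hm⟩ := ENat.ne_top_iff_exists.1 (hK y)
    exact ⟨m, y, le_rfl, hyx, hm.symm⟩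
  have hbd : ∀ m ∈ S, m ≤ n := by
    rintro m ⟨w, _, hw, hm⟩
    have h1 : Order.height w ≤ Order.height x := Order.height_mono hw.le
    rw [hm, ← hn] at h1
    exact_mod_cast h1
  have hmem : sSup S ∈ S := Nat.sSup_mem hne ⟨n, hbd⟩
  obtain ⟨w, hyw, hwx, hw⟩ := hmem
  refine ⟨w, hyw, hwx, ?_⟩
  intro c hwc hcx
  obtain ⟨m, hm⟩ := ENat.ne_top_iff_exists.1 (hK c)
  have hcS : m ∈ S := ⟨c, hyw.trans hwc.le, hcx, hm.symm⟩
  have h1 : m ≤ sSup S := le_csSup ⟨n, hbd⟩ hcS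
  have h2 : Order.height w < Order.height c :=
    Order.height_strictMono hwc (lt_top_iff_ne_top.2 (hK w))
  rw [hw, ← hm] at h2
  have h3 : sSup S < m := by exact_mod_cast h2
  omega

theorem lft_side {K : Type u} [Lattice K] [OrderBot K] [IsModularLattice K] (hK : Fh K)
    (P : K → K → Prop) (hP : Cl P) (φ : K → K) (h : Krn φ)
    (hφ : ∀ x y, y ≤ x → Fr P y x → φ x ≤ y) (z a b : Vk φ h) (hza : z ⋖ a) (hzb : z ⋖ b)
    (hab : a ≠ b) : ∃ a₁ : K, a.1 ⊓ b.1 ≤ a₁ ∧ a₁ ⋖ a.1 ∧ φ a₁ = z.1 ∧ P a₁ a.1 := by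
  have hnab : ¬ a ≤ b := by
    intro hle
    have h1 : a < b := lt_of_le_of_ne hle hab
    exact hzb.2 hza.1 h1
  have hinf : a ⊓ b = z := by
    by_contra hne
    have h1 : z < a ⊓ b := lt_of_le_of_ne (le_inf hza.1.le hzb.1.le) (Ne.symm hne)
    have h2 : ¬ a ⊓ b < a := hza.2 h1
    have h3 : a ⊓ b = a := by
      by_contra hne'
      exact h2 (lt_of_le_of_ne inf_le_left hne')
    exact hnab (inf_eq_left.1 h3)
  have hinf' : φ (a.1 ⊓ b.1) = z.1 := by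
    rw [← hinf]
    rfl
  have hlt : a.1 ⊓ b.1 < a.1 := by
    refine lt_of_le_of_ne inf_le_left ?_
    intro he
    exact hnab (show a.1 ≤ b.1 from inf_eq_left.1 he)
  obtain ⟨a₁, h1, h2⟩ := lft_exists_covBy hK hlt
  have h3 : φ a₁ = z.1 := by
    have h4 : z ≤ (Vk.mk a₁ : Vk φ h) := by
      show z.1 ≤ φ a₁
      rw [← hinf']
      exact h.mono h1
    have h5 : (Vk.mk a₁ : Vk φ h) < a := by
      show φ a₁ < a.1
      exact lt_of_le_of_lt (h.le a₁) h2.1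
    have h6 : ¬ z < (Vk.mk a₁ : Vk φ h) := fun h7 => hza.2 h7 h5
    have h8 : z = (Vk.mk a₁ : Vk φ h) := by
      by_contra hne
      exact h6 (lt_of_le_of_ne h4 hne)
    have h9 := congrArg (fun v : Vk φ h => v.1) h8
    exact h9.symm
  refine ⟨a₁, h1, h2, h3, ?_⟩
  by_contra hnP
  have hFr : Fr P a₁ a.1 := by
    intro p q hp hq hpq
    have hcov := hP.1 p q hpq
    have hp1 : p = a₁ := by
      by_contra hne
      exact h2.2 (lt_of_le_of_ne hp (Ne.symm hne)) (lt_of_lt_of_le hcov.1 hq)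
    have hq1 : q = a.1 := by
      by_contra hne
      exact h2.2 (lt_of_le_of_lt hp hcov.1) (lt_of_le_of_ne hq hne)
    rw [hp1, hq1] at hpq
    exact hnP hpq
  have h10 := hφ a.1 a₁ h2.1.le hFr
  rw [a.2] at h10
  exact absurd h2.1 (not_lt_of_ge h10)

theorem lft_up {K : Type u} [Lattice K] [IsModularLattice K] (P : K → K → Prop) (hP : Cl P)
    (a b a₁ b₁ : K) (h1 : a ⊓ b ≤ a₁) (h2 : a₁ ⋖ a) (h3 : b₁ ≤ b) (h4 : P a₁ a) :
    P (a₁ ⊔ b₁) (a ⊔ (a₁ ⊔ b₁)) := by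
  have h5 : a ⊓ (a₁ ⊔ b₁) = a₁ := by
    have h6 : (a₁ ⊔ b₁) ⊓ a ≤ a₁ ⊔ b₁ ⊓ a := IsModularLattice.sup_inf_le_assoc_of_le _ h2.1.le
    apply le_antisymm
    · rw [inf_comm]
      refine h6.trans (sup_le le_rfl ?_)
      refine le_trans ?_ h1
      rw [inf_comm]
      exact inf_le_inf_left a h3
    · exact le_inf h2.1.le le_sup_left
  have h6 : a₁ ⊔ b₁ ⋖ a ⊔ (a₁ ⊔ b₁) := by
    apply CovBy.sup_of_inf_left
    rw [h5]
    exact h2
  exact (hP.2 (a₁, a) (a₁ ⊔ b₁, a ⊔ (a₁ ⊔ b₁)) ⟨h2, h6, h5, rfl⟩).1 h4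

theorem tLft : S_Lft.{u} := by
  intro K _ _ _ hK P hP φ h hφ z a b hza hzb hab
  obtain ⟨a₁, a1, a2, a3, a4⟩ := lft_side hK P hP φ h hφ z a b hza hzb hab
  obtain ⟨b₁, b1, b2, b3, b4⟩ := lft_side hK P hP φ h hφ z b a hzb hza hab.symm
  have hφw : φ (a₁ ⊔ b₁) = z.1 := by
    rw [h.sup, a3, b3, sup_idem]
  refine ⟨a₁ ⊔ b₁, hφw, sup_le_sup a2.1.le b2.1.le, ?_, ?_, ?_⟩
  · exact lft_up P hP a.1 b.1 a₁ b₁ a1 a2 b2.1.le a4
  · rw [sup_comm a₁ b₁]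
    exact lft_up P hP b.1 a.1 b₁ a₁ b1 b2 a2.1.le b4
  · intro he
    have h1 : b.1 ≤ a.1 ⊔ (a₁ ⊔ b₁) := by
      rw [he]
      exact le_sup_left
    have h2 := h.mono h1
    rw [h.sup, a.2, b.2, hφw] at h2
    have h3 : a.1 ⊔ z.1 = a.1 := sup_eq_left.2 hza.1.le
    rw [h3] at h2
    have h4 : b < a := lt_of_le_of_ne h2 hab.symm
    exact hza.2 hzb.1 h4

end MP81M
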