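import Pool.Agent.Lib.MP_81b71e_M.Spec

/-!
# MP_81b71e_al, modular lattices: join irreducible elements which are not join prime
-/

set_option autoImplicit false

namespace MP81M

universe u

namespace LinAux

variable {K : Type u} [Lattice K]

theorem wf (hF : Fh K) : WellFounded ((· < ·) : K → K → Prop) := by
  have h : Subrelation ((· < ·) : K → K → Prop) (InvImage (· < ·) fun x : K => Order.height x) := by
    intro x y hxy
    exact Order.height_strictMono hxy (lt_top_iff_ne_top.2 (hF x))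
  exact Subrelation.wf h (InvImage.wf _ wellFounded_lt)

/-- minimal elements -/
theorem exMin (hF : Fh K) {S : K → Prop} {s₀ : K} (h₀ : S s₀) :
    ∃ s, S s ∧ s ≤ s₀ ∧ ∀ t, S t → t ≤ s → t = s := by
  obtain ⟨s, ⟨hs, hs0⟩, hm⟩ := (wf hF).has_min {s | S s ∧ s ≤ s₀} ⟨s₀, h₀, le_rfl⟩
  refine ⟨s, hs, hs0, fun t ht hts => ?_⟩
  by_contra hne
  exact hm t ⟨ht, hts.trans hs0⟩ (lt_of_le_of_ne hts hne)

/-- maximal elements of bounded sets -/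
theorem exMax (hF : Fh K) {S : K → Prop} {x s₀ : K} (hS : ∀ s, S s → s ≤ x) (h₀ : S s₀) :
    ∃ s, S s ∧ s₀ ≤ s ∧ ∀ t, S t → s ≤ t → t = s := by
  obtain ⟨s, ⟨hs, hs0⟩, hm⟩ := (InvImage.wf (fun s : K => (Order.height x).toNat - (Order.height s).toNat)
    (wellFounded_lt (α := ℕ))).has_min {s | S s ∧ s₀ ≤ s} ⟨s₀, h₀, le_rfl⟩
  refine ⟨s, hs, hs0, fun t ht hst => ?_⟩
  by_contra hne
  refine hm t ⟨ht, hs0.trans hst⟩ ?_
  have h1 : Order.height s < Order.height t :=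
    Order.height_strictMono (lt_of_le_of_ne hst fun h => hne h.symm) (lt_top_iff_ne_top.2 (hF s))
  have h2 : Order.height t ≤ Order.height x := Order.height_mono (hS t ht)
  obtain ⟨a, ha⟩ := ENat.ne_top_iff_exists.1 (hF s)
  obtain ⟨b, hb⟩ := ENat.ne_top_iff_exists.1 (hF t)
  obtain ⟨c, hc⟩ := ENat.ne_top_iff_exists.1 (hF x)
  rw [← ha, ← hb] at h1
  rw [← hb, ← hc] at h2
  show (Order.height x).toNat - (Order.height t).toNat < (Order.height x).toNat - (Order.height s).toNat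
  rw [← ha, ← hb, ← hc]
  have h3 : a < b := by exact_mod_cast h1
  have h4 : b ≤ c := by exact_mod_cast h2
  simp only [ENat.toNat_coe]
  omega

/-- `y ≤ a ⋖ x` -/
theorem exCo (hF : Fh K) {y x : K} (h : y < x) : ∃ a, y ≤ a ∧ a ⋖ x := by
  obtain ⟨s, hs, hys, hm⟩ := exMax hF (S := fun s => s < x) (fun s hs => hs.le) h
  refine ⟨s, hys, hs, fun t h1 h2 => ?_⟩
  exact h1.ne' (hm t h2 h1.le)

variable [IsModularLattice K]

theorem covSup {x y : K} (u : K) (h : x ⋖ y) (hn : ¬ y ≤ x ⊔ u) : x ⊔ u ⋖ y ⊔ u := by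
  have h1 : y ⊓ (x ⊔ u) = x := by
    have h2 : y ⊓ (x ⊔ u) < y := lt_of_le_of_ne inf_le_left fun e => hn (inf_eq_left.1 e)
    by_contra hne
    exact h.2 (lt_of_le_of_ne (le_inf h.le le_sup_left) fun e => hne e.symm) h2
  have h3 : y ⊓ (x ⊔ u) ⋖ y := by rw [h1]; exact h
  have h4 := covBy_sup_of_inf_covBy_left h3
  rwa [← sup_assoc, sup_eq_left.2 h.le] at h4

theorem claim {i j k₁ k₂ l₁ : K} (hij : Ji i j) (hl : l₁ ⋖ k₁) (hj : j ⊔ k₂ = k₁ ⊔ k₂)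
    (hnot : ¬ j ≤ l₁ ⊔ k₂) : i ⊔ k₂ = l₁ ⊔ k₂ ∧ i ⊔ k₂ ⋖ k₁ ⊔ k₂ := by
  have hjn : j ≤ k₁ ⊔ k₂ := by rw [← hj]; exact le_sup_left
  have h1 : l₁ ⊔ k₂ ⋖ k₁ ⊔ k₂ := covSup k₂ hl fun h => hnot (hjn.trans (sup_le h le_sup_right))
  have h2 : j ⊔ (l₁ ⊔ k₂) = k₁ ⊔ k₂ := by
    have h3 : l₁ ⊔ k₂ < j ⊔ (l₁ ⊔ k₂) :=
      lt_of_le_of_ne le_sup_right fun h => hnot (by rw [h]; exact le_sup_left)
    by_contra hne
    exact h1.2 h3 (lt_of_le_of_ne (sup_le hjn h1.le) hne)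
  have h4 : j ⊓ (l₁ ⊔ k₂) ⋖ j := by
    apply inf_covBy_of_covBy_sup_right
    rw [h2]
    exact h1
  have h5 : j ⊓ (l₁ ⊔ k₂) = i := by
    have h6 := hij.2 _ h4.lt
    rcases h6.lt_or_eq with h7 | h7
    · exact absurd hij.1.lt (h4.2 h7)
    · exact h7
  have h8 : i ≤ l₁ ⊔ k₂ := by rw [← h5]; exact inf_le_right
  have h9 : i ⊔ k₂ ≤ l₁ ⊔ k₂ := sup_le h8 le_sup_right
  have h10 : i ⊔ k₂ ⋖ k₁ ⊔ k₂ := by
    rw [← hj]
    refine covSup k₂ hij.1 fun h => hnot (h.trans h9)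
  refine ⟨?_, h10⟩
  rcases h9.lt_or_eq with h11 | h11
  · exact absurd h1.lt (h10.2 h11)
  · exact h11

theorem ex_low [OrderBot K] (hF : Fh K) {k : K} (hk : k ≠ ⊥) : ∃ l, l ⋖ k := by
  obtain ⟨a, -, ha⟩ := exCo hF (bot_lt_iff_ne_bot.2 hk)
  exact ⟨a, ha⟩

end LinAux

open LinAux in
theorem tLin : S_Lin.{u} := by
  intro K _ _ _ hF i j hij ⟨x, y, hjxy, hjx, hjy⟩
  obtain ⟨k₁, hk₁, hk₁x, hm₁⟩ := exMin hF (S := fun k => j ≤ k ⊔ y) (s₀ := x) hjxy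
  obtain ⟨k₂, hk₂, hk₂y, hm₂⟩ := exMin hF (S := fun k => j ≤ k₁ ⊔ k) (s₀ := y) hk₁
  have m1 : ∀ k, k < k₁ → ¬ j ≤ k ⊔ k₂ := fun k hk h =>
    hk.ne (hm₁ k (h.trans (sup_le_sup_left hk₂y _)) hk.le)
  have m2 : ∀ k, k < k₂ → ¬ j ≤ k₁ ⊔ k := fun k hk h => hk.ne (hm₂ k h hk.le)
  have hb1 : k₁ ≠ ⊥ := by
    rintro rfl
    exact hjy (by rwa [bot_sup_eq] at hk₁)
  have hb2 : k₂ ≠ ⊥ := by
    rintro rfl
    rw [sup_bot_eq] at hk₂
    exact hjx (hk₂.trans hk₁x)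
  have e2 : j ⊔ k₂ = k₁ ⊔ k₂ := by
    apply le_antisymm (sup_le hk₂ le_sup_right)
    refine sup_le ?_ le_sup_right
    have h1 : k₂ ⊔ k₁ ⊓ (j ⊔ k₂) = j ⊔ k₂ := by
      rw [← sup_inf_assoc_of_le k₁ (le_sup_right : k₂ ≤ j ⊔ k₂), sup_comm k₂ k₁]
      exact inf_eq_right.2 (sup_le hk₂ le_sup_right)
    by_contra hn
    refine m1 (k₁ ⊓ (j ⊔ k₂)) (lt_of_le_of_ne inf_le_left fun e => hn (inf_eq_left.1 e)) ?_
    rw [sup_comm, h1]
    exact le_sup_left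
  have e1 : j ⊔ k₁ = k₂ ⊔ k₁ := by
    apply le_antisymm (sup_le (by rw [sup_comm]; exact hk₂) le_sup_right)
    refine sup_le ?_ le_sup_right
    have h1 : k₁ ⊔ k₂ ⊓ (j ⊔ k₁) = j ⊔ k₁ := by
      rw [← sup_inf_assoc_of_le k₂ (le_sup_right : k₁ ≤ j ⊔ k₁)]
      exact inf_eq_right.2 (sup_le hk₂ le_sup_left)
    by_contra hn
    refine m2 (k₂ ⊓ (j ⊔ k₁)) (lt_of_le_of_ne inf_le_left fun e => hn (inf_eq_left.1 e)) ?_
    rw [h1]
    exact le_sup_left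
  obtain ⟨l₁, hl₁⟩ := ex_low hF hb1
  obtain ⟨l₂, hl₂⟩ := ex_low hF hb2
  obtain ⟨c1, c1'⟩ := claim hij hl₁ e2 (m1 l₁ hl₁.lt)
  obtain ⟨c2, c2'⟩ := claim hij hl₂ e1 (by rw [sup_comm]; exact m2 l₂ hl₂.lt)
  obtain ⟨n, hn⟩ : ∃ n, n = k₁ ⊔ k₂ := ⟨_, rfl⟩
  rw [← hn] at c1' e2
  rw [sup_comm k₂ k₁, ← hn] at c2' e1
  obtain ⟨g, hg⟩ : ∃ g, g = i ⊔ l₁ ⊔ l₂ := ⟨_, rfl⟩
  have g2 : g ≤ i ⊔ k₂ := by
    rw [hg]
    refine sup_le (sup_le le_sup_left ?_) (hl₂.le.trans le_sup_right)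
    rw [c1]
    exact le_sup_left
  have g1 : g ≤ i ⊔ k₁ := by
    rw [hg]
    refine sup_le (sup_le le_sup_left (hl₁.le.trans le_sup_right)) ?_
    rw [c2]
    exact le_sup_left
  have hjn : j ≤ n := by rw [← e2]; exact le_sup_left
  have hk₁n : k₁ ≤ n := by rw [hn]; exact le_sup_left
  have hk₂n : k₂ ≤ n := by rw [hn]; exact le_sup_right
  have hgn : g ≤ n := g2.trans c1'.le
  have nj : ¬ j ≤ g := fun h => absurd (lt_of_le_of_lt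
    (by rw [← e2]; exact sup_le (h.trans g2) le_sup_right : n ≤ i ⊔ k₂) c1'.lt) (lt_irrefl n)
  have nk₁ : ¬ k₁ ≤ g := fun h => absurd (lt_of_le_of_lt
    (by rw [hn]; exact sup_le (h.trans g2) le_sup_right : n ≤ i ⊔ k₂) c1'.lt) (lt_irrefl n)
  have nk₂ : ¬ k₂ ≤ g := fun h => absurd (lt_of_le_of_lt
    (by rw [hn]; exact sup_le le_sup_right (h.trans g1) : n ≤ i ⊔ k₁) c2'.lt) (lt_irrefl n)
  have hig : i ≤ g := by rw [hg]; exact le_sup_left.trans le_sup_left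
  have hl₁g : l₁ ≤ g := by rw [hg]; exact le_sup_right.trans le_sup_left
  have hl₂g : l₂ ≤ g := by rw [hg]; exact le_sup_right
  have cj : g ⋖ j ⊔ g := by
    have := covSup g hij.1 (by rw [sup_eq_right.2 hig]; exact nj)
    rwa [sup_eq_right.2 hig] at this
  have ck₁ : g ⋖ k₁ ⊔ g := by
    have := covSup g hl₁ (by rw [sup_eq_right.2 hl₁g]; exact nk₁)
    rwa [sup_eq_right.2 hl₁g] at this
  have ck₂ : g ⋖ k₂ ⊔ g := by
    have := covSup g hl₂ (by rw [sup_eq_right.2 hl₂g]; exact nk₂)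
    rwa [sup_eq_right.2 hl₂g] at this
  have hng : ¬ g ⋖ n := by
    intro h
    rcases g2.lt_or_eq with h1 | h1
    · exact h.2 h1 c1'.lt
    · exact nk₂ (by rw [h1]; exact le_sup_right)
  have join : ∀ a b : K, a ⊔ b = n → (a ⊔ g) ⊔ (b ⊔ g) = n := by
    intro a b hab
    rw [sup_sup_sup_comm, hab, sup_idem, sup_eq_left.2 hgn]
  have j1 := join j k₁ e1
  have j2 := join j k₂ e2
  have j3 := join k₁ k₂ hn.symm
  refine ⟨g, k₁ ⊔ g, k₂ ⊔ g, ⟨cj, ck₁, ck₂, ?_, ?_, ?_, ?_⟩, hij.1, cj, ?_, rfl⟩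
  · intro h
    rw [h, sup_idem] at j1
    rw [j1] at ck₁
    exact hng ck₁
  · intro h
    rw [h, sup_idem] at j2
    rw [j2] at ck₂
    exact hng ck₂
  · intro h
    rw [h, sup_idem] at j3
    rw [j3] at ck₂
    exact hng ck₂
  · rw [j1]
    exact sup_le hk₂n hgn
  · apply le_antisymm
    · exact hij.2 _ (lt_of_le_of_ne inf_le_left fun e => nj (inf_eq_left.1 e))
    · exact le_inf hij.1.le hig

end MP81M
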