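import Pool.Agent.Lib.MP_81b71e_M.Spec

/-!
# MP_81b71e_al, modular lattices: join prime elements
-/

set_option autoImplicit false

namespace MP81M

universe u

open Classical in
/-- `a` if `a ≤ x`, otherwise the least element -/
private noncomputable def ifl {K : Type u} [Lattice K] [OrderBot K] (a x : K) : K :=
  if a ≤ x then a else ⊥

private theorem ifl_le {K : Type u} [Lattice K] [OrderBot K] (a x : K) : ifl a x ≤ x := by
  unfold ifl
  split
  · assumption
  · exact bot_le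

private theorem ifl_pos {K : Type u} [Lattice K] [OrderBot K] {a x : K} (h : a ≤ x) :
    ifl a x = a := if_pos h

private theorem ifl_neg {K : Type u} [Lattice K] [OrderBot K] {a x : K} (h : ¬ a ≤ x) :
    ifl a x = ⊥ := if_neg h

private theorem ifl_sup {K : Type u} [Lattice K] [OrderBot K] {a : K}
    (ha : ∀ x y, a ≤ x ⊔ y → a ≤ x ∨ a ≤ y) (x y : K) : ifl a (x ⊔ y) = ifl a x ⊔ ifl a y := by
  by_cases h1 : a ≤ x
  · rw [ifl_pos h1, ifl_pos (h1.trans le_sup_left)]
    by_cases h2 : a ≤ y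
    · rw [ifl_pos h2, sup_idem]
    · rw [ifl_neg h2, sup_bot_eq]
  · by_cases h2 : a ≤ y
    · rw [ifl_neg h1, ifl_pos h2, ifl_pos (h2.trans le_sup_right), bot_sup_eq]
    · rw [ifl_neg h1, ifl_neg h2, ifl_neg (fun h => (ha x y h).elim h1 h2), bot_sup_eq]

private theorem ifl_idem {K : Type u} [Lattice K] [OrderBot K] (a b x : K)
    (hb : b = ifl a x ⊔ b) (hbx : b ≤ x) : ifl a b = ifl a x := by
  by_cases h : a ≤ x
  · have h1 : a ≤ b := by
      rw [hb, ifl_pos h]
      exact le_sup_left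
    rw [ifl_pos h, ifl_pos h1]
  · rw [ifl_neg h, ifl_neg (fun h1 => h (h1.trans hbx))]

theorem tPri : S_Pri := by
  intro K _ _ θ hθ j hj
  have hj' : ∀ x y, θ j ≤ x ⊔ y → θ j ≤ x ∨ θ j ≤ y := by
    intro x y h
    have h1 : j ≤ θ x ⊔ θ y := by
      rw [← map_sup, ← hθ j]
      exact θ.monotone h
    rcases hj _ _ h1 with h2 | h2
    · left
      rw [← hθ x]
      exact θ.monotone h2
    · right
      rw [← hθ y]
      exact θ.monotone h2
  have hiff : ∀ a x, θ a ≤ x ↔ a ≤ θ x := by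
    intro a x
    constructor
    · intro h
      rw [← hθ a]
      exact θ.monotone h
    · intro h
      rw [← hθ x]
      exact θ.monotone h
  have hcomm : ∀ a x, ifl a (θ x) = θ (ifl (θ a) x) := by
    intro a x
    by_cases h : a ≤ θ x
    · rw [ifl_pos h, ifl_pos ((hiff a x).2 h), hθ]
    · rw [ifl_neg h, ifl_neg (fun h1 => h ((hiff a x).1 h1)), map_bot]
  have hcomm' : ∀ a x, ifl (θ a) (θ x) = θ (ifl a x) := by
    intro a x
    rw [hcomm, hθ]
  have hle : ∀ x, ifl j x ⊔ ifl (θ j) x ≤ x := fun x => sup_le (ifl_le _ _) (ifl_le _ _)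
  refine ⟨fun x => ifl j x ⊔ ifl (θ j) x, ⟨⟨hle, ?_, ?_⟩, ?_, ?_⟩, ?_⟩
  · intro x y
    show ifl j (x ⊔ y) ⊔ ifl (θ j) (x ⊔ y) = (ifl j x ⊔ ifl (θ j) x) ⊔ (ifl j y ⊔ ifl (θ j) y)
    rw [ifl_sup hj, ifl_sup hj', sup_sup_sup_comm]
  · intro x
    show ifl j (θ x) ⊔ ifl (θ j) (θ x) = θ (ifl j x ⊔ ifl (θ j) x)
    rw [hcomm, hcomm', map_sup, sup_comm]
  · intro x
    show ifl j (ifl j x ⊔ ifl (θ j) x) ⊔ ifl (θ j) (ifl j x ⊔ ifl (θ j) x) =
      ifl j x ⊔ ifl (θ j) x
    rw [ifl_idem j _ x (by rw [← sup_assoc, sup_idem]) (hle x),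
      ifl_idem (θ j) (ifl j x ⊔ ifl (θ j) x) x
        (by rw [sup_comm (ifl j x), ← sup_assoc, sup_idem]) (hle x)]
  · intro x y hx hy hne hlt hy0
    exfalso
    have hx' : ifl j x ⊔ ifl (θ j) x = x := hx
    have hy' : ifl j y ⊔ ifl (θ j) y = y := hy
    have hanti : ∀ a, θ a < a → False := by
      intro a h
      have h1 : θ (θ a) < θ a := θ.strictMono h
      rw [hθ] at h1
      exact lt_asymm h h1
    have hanti' : ∀ a, a < θ a → False := by
      intro a h
      have h1 : θ a < θ (θ a) := θ.strictMono h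
      rw [hθ] at h1
      exact lt_asymm h h1
    have hyc : j ≤ y ∨ θ j ≤ y := by
      by_contra hc
      rw [not_or] at hc
      rw [ifl_neg hc.1, ifl_neg hc.2, sup_idem] at hy'
      exact hy0 hy'.symm
    by_cases h1 : j ≤ x
    · by_cases h2 : θ j ≤ x
      · rw [ifl_pos h1, ifl_pos h2] at hx'
        apply hne
        rw [← hx', map_sup, hθ, sup_comm]
      · rw [ifl_pos h1, ifl_neg h2, sup_bot_eq] at hx'
        subst hx'
        rcases hyc with h3 | h3
        · exact absurd hlt (not_lt_of_ge h3)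
        · exact hanti _ (lt_of_le_of_lt h3 hlt)
    · by_cases h2 : θ j ≤ x
      · rw [ifl_neg h1, ifl_pos h2, bot_sup_eq] at hx'
        rw [← hx'] at hlt
        rcases hyc with h3 | h3
        · exact hanti' _ (lt_of_le_of_lt h3 hlt)
        · exact absurd hlt (not_lt_of_ge h3)
      · rw [ifl_neg h1, ifl_neg h2, sup_idem] at hx'
        apply hne
        rw [← hx', map_bot]
  · show ifl j j ⊔ ifl (θ j) j = j
    rw [ifl_pos le_rfl]
    exact sup_eq_left.2 (ifl_le _ _)

end MP81M
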