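import Pool.Agent.Lib.MP_81b71e_M.Spec

/-!
# Join irreducible elements which are not join prime
-/

set_option autoImplicit false

namespace MP81M

universe u

private theorem thi_tr {K : Type u} [Lattice K] (θ : K ≃o K) {p q : K × K} (h : Tr p q) :
    Tr (θ p.1, θ p.2) (θ q.1, θ q.2) := by
  obtain ⟨h1, h2, h3, h4⟩ := h
  refine ⟨(apply_covBy_apply_iff θ).2 h1, (apply_covBy_apply_iff θ).2 h2, ?_, ?_⟩
  · change θ p.2 ⊓ θ q.1 = θ p.1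
    rw [← θ.map_inf, h3]
  · change θ p.2 ⊔ θ q.1 = θ q.2
    rw [← θ.map_sup, h4]

private theorem thi_pj {K : Type u} [Lattice K] (θ : K ≃o K) {p q : K × K} (h : Pj p q) :
    Pj (θ p.1, θ p.2) (θ q.1, θ q.2) := by
  induction h with
  | rel x y h => exact Relation.EqvGen.rel _ _ (thi_tr θ h)
  | refl x => exact Relation.EqvGen.refl _
  | symm x y _ ih => exact Relation.EqvGen.symm _ _ ih
  | trans x y z _ _ ih1 ih2 => exact Relation.EqvGen.trans _ _ _ ih1 ih2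

theorem tThi (h1 : S_Uni.{u}) (h2 : S_Fra.{u}) (h3 : S_Lin.{u}) (h4 : S_Inv.{u}) (h5 : S_Cor.{u})
    (h6 : S_Vmo.{u}) (h7 : S_Vth.{u}) : S_Thi.{u} := by
  intro K _ _ _ hF hT θ hθ hDm i j hij hnp
  let P : K → K → Prop := fun a b => a ⋖ b ∧ Pj (i, j) (a, b)
  have hCl : Cl P := by
    refine ⟨fun a b h => h.1, fun p q hpq => ⟨fun h => ⟨hpq.2.1, ?_⟩, fun h => ⟨hpq.1, ?_⟩⟩⟩
    · exact Relation.EqvGen.trans _ _ _ h.2 (Relation.EqvGen.rel _ _ hpq)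
    · exact Relation.EqvGen.trans _ _ _ h.2 (Relation.EqvGen.symm _ _ (Relation.EqvGen.rel _ _ hpq))
  have hPP : ∀ a b c d, P a b → P c d → Pj (a, b) (c, d) := fun a b c d h h' =>
    Relation.EqvGen.trans _ _ _ (Relation.EqvGen.symm _ _ h.2) h'.2
  obtain ⟨g, b, c, hdia, htr⟩ := h3 K hF i j hij hnp
  have hInv := h4 K θ hθ hDm g (j ⊔ g) b c hdia
  have hij' : Pj (i, j) (θ i, θ j) :=
    Relation.EqvGen.trans _ _ _ (Relation.EqvGen.rel _ _ htr) (Relation.EqvGen.trans _ _ _ hInv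
      (Relation.EqvGen.symm _ _ (Relation.EqvGen.rel _ _ (thi_tr θ htr))))
  have hPf : ∀ a b, P a b → P (θ a) (θ b) := fun a b h =>
    ⟨(apply_covBy_apply_iff θ).2 h.1, Relation.EqvGen.trans _ _ _ hij' (thi_pj θ h.2)⟩
  have hPθ : ∀ a b, P a b ↔ P (θ a) (θ b) := by
    intro a b
    refine ⟨hPf a b, fun h => ?_⟩
    have h' := hPf _ _ h
    rwa [hθ, hθ] at h'
  obtain ⟨φ, hK, hFr, hmin, hcomm⟩ := h5 K hF P hCl
  have hc := hcomm θ hPθ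
  obtain ⟨hmod, hFV⟩ := h6 K hF φ hK
  obtain ⟨hsq, hDV⟩ := h7 K hF hT P hCl hPP φ hK hmin
  have hDmV := hDV θ hc hDm
  have hθ' : ∀ x : Vk φ hK, Vk.th (h := hK) θ hc (Vk.th (h := hK) θ hc x) = x := by
    intro x
    apply Vk.ext
    rw [Vk.coe_th, Vk.coe_th, hθ]
  have hφj : φ j = j := by
    by_contra hne
    have hlt : φ j < j := lt_of_le_of_ne (hK.le j) hne
    exact hFr j i j (hij.2 _ hlt) le_rfl ⟨hij.1, Relation.EqvGen.refl _⟩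
  obtain ⟨Φ, hΦ1, hΦ2⟩ := h2 (Vk φ hK) hFV
  have hΦ := hΦ1 (Vk.th (h := hK) θ hc)
  have hψ : Ctr θ (fun x => (Φ (Vk.mk x : Vk φ hK)).1) := by
    refine ⟨fun x => ?_, fun x y => ?_, fun x => ?_⟩
    · exact ((Vk.le_def _ _).1 (hΦ.le (Vk.mk x))).trans (hK.le x)
    · rw [Vk.mk_sup, hΦ.sup, Vk.coe_sup]
    · have h8 : (Vk.mk (θ x) : Vk φ hK) = Vk.th (h := hK) θ hc (Vk.mk x) := Vk.ext (hc x)
      change (Φ (Vk.mk (θ x) : Vk φ hK)).1 = _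
      rw [h8, hΦ.comm, Vk.coe_th]
  refine ⟨φ, { le := hK.le, sup := hK.sup, comm := hc, idem := hK.idem, low := ?_ }, hφj⟩
  intro x y hx hy hne hlt _
  have hneX : Vk.th (h := hK) θ hc (⟨x, hx⟩ : Vk φ hK) ≠ ⟨x, hx⟩ := fun h =>
    hne (congrArg Subtype.val h)
  obtain ⟨s, hs, hθs⟩ := h1 (Vk φ hK) (Vk.th (h := hK) θ hc) hFV hθ' hDmV hsq ⟨x, hx⟩ hneX
  have hsθ : θ s.1 = s.1 := congrArg Subtype.val hθs
  have hys : y ≤ s.1 := by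
    have h8 : (⟨y, hy⟩ : Vk φ hK) < ⟨x, hx⟩ := by
      rw [lt_iff_le_and_ne]
      exact ⟨hlt.le, fun h => hlt.ne (congrArg Subtype.val h)⟩
    exact hs.2 ⟨y, hy⟩ h8
  have hsx : s.1 ≤ x := hs.1.le
  have hψx : (Φ (Vk.mk x : Vk φ hK)).1 = s.1 := by
    have h8 : (Vk.mk x : Vk φ hK) = ⟨x, hx⟩ := Vk.ext hx
    rw [h8, hΦ2 s _ hs]
  refine ⟨?_, _, hψ, ?_, ?_⟩
  · calc y ≤ s.1 := hys
      _ = θ s.1 := hsθ.symm
      _ ≤ θ x := θ.monotone hsx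
  · rw [hψx]
    exact hys
  · rw [hψx, hsθ]

end MP81M
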