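import Pool.Agent.Lib.MP_81b71e_M.Spec

/-!
# MP_81b71e_al, modular lattices: nonsymmetric elements have one lower cover (helper84)
-/

set_option autoImplicit false

namespace MP81M

universe u

namespace UniAux

theorem hlt {K : Type u} [Preorder K] (h : Fh K) {x y : K} (hxy : x < y) :
    (Order.height x).toNat < (Order.height y).toNat := by
  have h1 := Order.height_strictMono hxy (lt_top_iff_ne_top.2 (h x))
  obtain ⟨n, hn⟩ := ENat.ne_top_iff_exists.1 (h x)
  obtain ⟨m, hm⟩ := ENat.ne_top_iff_exists.1 (h y)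
  rw [← hn, ← hm] at h1 ⊢
  simpa using h1

theorem wf {K : Type u} [Preorder K] (h : Fh K) : WellFounded ((· < ·) : K → K → Prop) :=
  Subrelation.wf (r := fun x y : K => (Order.height x).toNat < (Order.height y).toNat)
    (fun hxy => hlt h hxy) (measure fun x : K => (Order.height x).toNat).wf

/-- a lower cover above `y` -/
theorem lower {K : Type u} [PartialOrder K] (h : Fh K) {x y : K} (hxy : y < x) : ∃ a, y ≤ a ∧ a ⋖ x := by
  have h0 : {w : K | y ≤ w ∧ w < x}.Nonempty := ⟨y, le_refl y, hxy⟩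
  obtain ⟨w, hw, hmin⟩ := (measure fun w : K => (Order.height x).toNat - (Order.height w).toNat).wf.has_min _ h0
  refine ⟨w, hw.1, hw.2, fun v hwv hvx => hmin v ⟨hw.1.trans hwv.le, hvx⟩ ?_⟩
  have h1 := hlt h hwv
  have h2 := hlt h hvx
  show (Order.height x).toNat - (Order.height v).toNat < (Order.height x).toNat - (Order.height w).toNat
  omega

theorem inf_eq {K : Type u} [Lattice K] {z a b : K} (ha : z ⋖ a) (hb : z ⋖ b) (hab : a ≠ b) : a ⊓ b = z := by
  rcases ha.eq_or_eq (le_inf ha.le hb.le) inf_le_left with h | h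
  · exact h
  · exfalso
    have h1 : a ≤ b := by
      rw [← h]
      exact inf_le_right
    rcases hb.eq_or_eq ha.le h1 with h2 | h2
    · exact ha.ne h2.symm
    · exact hab h2

theorem sup_eq {K : Type u} [Lattice K] {t a b : K} (ha : a ⋖ t) (hb : b ⋖ t) (hab : a ≠ b) : a ⊔ b = t := by
  rcases ha.eq_or_eq le_sup_left (sup_le ha.le hb.le) with h | h
  · exfalso
    have h1 : b ≤ a := by
      rw [← h]
      exact le_sup_right
    rcases hb.eq_or_eq h1 ha.le with h2 | h2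
    · exact hab h2
    · exact ha.ne h2
  · exact h

theorem sup_cov {K : Type u} [Lattice K] [IsModularLattice K] {z a b : K} (ha : z ⋖ a) (hb : z ⋖ b)
    (hab : a ≠ b) : a ⋖ a ⊔ b := by
  have h := inf_eq ha hb hab
  rw [← h] at hb
  exact covBy_sup_of_inf_covBy_right hb

end UniAux

open UniAux

/-- **Uni** -/
theorem tUni (h1 : S_Dm2.{u}) : S_Uni.{u} := by
  intro M _ _ _ θ hF hθ hD hT
  have hsym : ∀ m : M, m ≤ θ m → θ m = m := by
    intro m hm
    refine le_antisymm ?_ hm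
    have h2 := θ.monotone hm
    rwa [hθ] at h2
  -- claim A
  have hA : ∀ z s s' : M, z ⋖ s → θ z = z → θ s ≠ s → s ⋖ s' → θ s' = s' := by
    intro z s s' hzs hz hs hss'
    by_contra hs'
    have h2 : z ⋖ θ s := by
      have h3 : θ z ⋖ θ s := (apply_covBy_apply_iff θ).2 hzs
      rwa [hz] at h3
    have h3 : s ⋖ s ⊔ θ s := sup_cov hzs h2 (Ne.symm hs)
    have h4 : θ (s ⊔ θ s) = s ⊔ θ s := by
      rw [map_sup, hθ, sup_comm]
    have h5 : s' ≠ s ⊔ θ s := by
      intro h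
      exact hs' (by rw [h, h4])
    obtain ⟨c, hc⟩ := hT s s' (s ⊔ θ s) hss' h3 h5
    have h6 := hD s s' (s ⊔ θ s) c hc
    have h7 : s ≤ (s' ⊔ (s ⊔ θ s)) ⊓ θ (s' ⊔ (s ⊔ θ s)) := by
      refine le_inf (le_sup_left.trans le_sup_right) ?_
      rw [map_sup, h4]
      exact le_sup_left.trans le_sup_right
    rw [sup_eq_right.2 h7] at h6
    have h8 : s' ⊔ (s ⊔ θ s) ≤ θ (s' ⊔ (s ⊔ θ s)) := by
      have h9 : (s' ⊔ (s ⊔ θ s)) ⊓ θ (s' ⊔ (s ⊔ θ s)) ≤ θ (s' ⊔ (s ⊔ θ s)) := inf_le_right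
      rwa [← h6] at h9
    exact hs (h1 M θ hθ hD s s' (s ⊔ θ s) c hc (hsym _ h8))
  have hbot : θ ⊥ = ⊥ := map_bot θ
  -- claim B
  have hB : ∀ t : M, θ t ≠ t → ∀ w, w ⋖ t → θ w = w := by
    intro t
    induction t using (wf hF).induction with
    | _ t ih =>
      intro ht w hw
      by_contra hw'
      have h2 : ⊥ < w := bot_lt_iff_ne_bot.2 fun h => hw' (by rw [h, hbot])
      obtain ⟨v, -, hv⟩ := lower hF h2
      exact ht (hA v w t hv (ih w hw.lt hw' v hv) hw' hw)
  intro t ht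
  have h2 : ⊥ < t := bot_lt_iff_ne_bot.2 fun h => ht (by rw [h, hbot])
  obtain ⟨s, -, hs⟩ := lower hF h2
  refine ⟨s, ⟨hs, fun y hy => ?_⟩, hB t ht s hs⟩
  obtain ⟨w, hyw, hw⟩ := lower hF hy
  by_cases hws : w = s
  · rw [← hws]
    exact hyw
  · exfalso
    have h3 := UniAux.sup_eq hw hs hws
    apply ht
    rw [← h3, map_sup, hB t ht s hs, hB t ht w hw]

end MP81M
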