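import Pool.Agent.Lib.MP_81b71e_M.Spec

set_option autoImplicit false

namespace MP81M

universe u

theorem tVmo : S_Vmo.{u} := by
  intro K _ _ _ hK φ h
  refine ⟨⟨?_⟩, ?_⟩
  · intro x y z hxz
    have h1 : (x.1 ⊔ y.1) ⊓ z.1 ≤ x.1 ⊔ y.1 ⊓ z.1 := IsModularLattice.sup_inf_le_assoc_of_le _ hxz
    have h2 := h.mono h1
    show φ ((x.1 ⊔ y.1) ⊓ z.1) ≤ x.1 ⊔ φ (y.1 ⊓ z.1)
    rw [h.sup, x.2] at h2
    exact h2
  · intro x hx
    apply hK x.1
    have hmono : StrictMono (fun v : Vk φ h => v.1) := fun a b hab => hab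
    have h1 := Order.height_le_height_apply_of_strictMono _ hmono x
    rw [hx] at h1
    exact top_le_iff.1 h1

end MP81M
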