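import Pool.Agent.Lib.MP_81b71e_M.Spec

/-!
# MP_81b71e_al, modular lattices: the image has thick squares (helper60)
-/

set_option autoImplicit false

namespace MP81M

universe u

namespace VthAux

theorem eq_of_le {K : Type u} [Lattice K] {z a b : K} (ha : z ⋖ a) (hb : z ⋖ b) (hab : a ≤ b) : a = b := by
  rcases hb.eq_or_eq ha.le hab with h | h
  · exact absurd h.symm ha.ne
  · exact h

theorem inf_eq {K : Type u} [Lattice K] {z a b : K} (ha : z ⋖ a) (hb : z ⋖ b) (hab : a ≠ b) :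
    a ⊓ b = z := by
  rcases ha.eq_or_eq (le_inf ha.le hb.le) inf_le_left with h | h
  · exact h
  · exfalso
    have h1 : a ≤ b := by
      rw [← h]
      exact inf_le_right
    exact hab (eq_of_le ha hb h1)

theorem sup_cov {K : Type u} [Lattice K] [IsModularLattice K] {z a b : K} (ha : z ⋖ a) (hb : z ⋖ b)
    (hab : a ≠ b) : a ⋖ a ⊔ b := by
  have h := inf_eq ha hb hab
  rw [← h] at hb
  exact covBy_sup_of_inf_covBy_right hb

theorem cov3 {K : Type u} [Lattice K] [IsModularLattice K] {z a b w : K} (ha : z ⋖ a) (hb : z ⋖ b)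
    (hab : a ≠ b) (hzw : z ≤ w) (hw : w ≠ a ⊔ b) (hwa : w ⊔ a = a ⊔ b) : z ⋖ w := by
  have h1 : a ⊓ w = z := by
    rcases ha.eq_or_eq (le_inf ha.le hzw) inf_le_left with h | h
    · exact h
    · exfalso
      have h2 : a ≤ w := by
        rw [← h]
        exact inf_le_right
      apply hw
      rw [← hwa, sup_eq_left.2 h2]
  have h3 := sup_cov ha hb hab
  rw [← hwa, sup_comm] at h3
  have h4 := inf_covBy_of_covBy_sup_left h3
  rwa [h1] at h4

theorem sup_dia {K : Type u} [Lattice K] [IsModularLattice K] {z a b c : K} (ha : z ⋖ a) (hb : z ⋖ b)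
    (hc : z ⋖ c) (hab : a ≠ b) (hac : a ≠ c) (hcm : c ≤ a ⊔ b) : a ⊔ c = a ⊔ b := by
  have h1 := sup_cov ha hb hab
  rcases h1.eq_or_eq le_sup_left (sup_le le_sup_left hcm) with h | h
  · exfalso
    have h2 : c ≤ a := by
      rw [← h]
      exact le_sup_right
    exact hac (eq_of_le hc ha h2).symm
  · exact h

end VthAux

open VthAux

/-- **Vth** -/
theorem tVth (h1 : S_Vmo.{u}) (h2 : S_Lft.{u}) : S_Vth.{u} := by
  intro K _ _ _ hF hT P hP hPj φ h hφ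
  have hVm : IsModularLattice (Vk φ h) := (h1 K hF φ h).1
  -- the lifted square
  have hL : ∀ z a b : Vk φ h, z ⋖ a → z ⋖ b → a ≠ b → ∃ w : K, φ w = z.1 ∧ P w (a.1 ⊔ w) ∧
      P w (b.1 ⊔ w) ∧ a.1 ⊔ w ≠ b.1 ⊔ w ∧ (a.1 ⊔ w) ⊔ (b.1 ⊔ w) = a.1 ⊔ b.1 ∧ w ≤ a.1 ⊔ b.1 ∧
        φ (a.1 ⊔ w) = a.1 ∧ φ (b.1 ⊔ w) = b.1 := by
    intro z a b hza hzb hab
    obtain ⟨w, hw1, hw2, hw3, hw4, hw5⟩ := h2 K hF P hP φ h hφ z a b hza hzb hab
    refine ⟨w, hw1, hw3, hw4, hw5, ?_, hw2, ?_, ?_⟩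
    · rw [sup_sup_sup_comm, sup_idem]
      exact sup_eq_left.2 hw2
    · rw [h.sup, a.2, hw1]
      exact sup_eq_left.2 hza.le
    · rw [h.sup, b.2, hw1]
      exact sup_eq_left.2 hzb.le
  constructor
  · intro z a b hza hzb hab
    obtain ⟨w, hw1, hw3, hw4, hw5, hw6, hw2, hwa, hwb⟩ := hL z a b hza hzb hab
    have ha' := hP.1 _ _ hw3
    have hb' := hP.1 _ _ hw4
    obtain ⟨c, -, -, hc, -, hac, hbc, hcm⟩ := hT w (a.1 ⊔ w) (b.1 ⊔ w) ha' hb' hw5 (hPj _ _ _ _ hw3 hw4)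
    have h3 : (a.1 ⊔ w) ⊔ c = a.1 ⊔ b.1 := by
      rw [← hw6]
      exact sup_dia ha' hb' hc hw5 hac hcm
    have h4 : (b.1 ⊔ w) ⊔ c = a.1 ⊔ b.1 := by
      rw [← hw6, sup_comm (a.1 ⊔ w)]
      exact sup_dia hb' ha' hc hw5.symm hbc (by rw [sup_comm]; exact hcm)
    have hm : φ (a.1 ⊔ b.1) = a.1 ⊔ b.1 := (a ⊔ b).2
    have h5 : Vk.mk c ⊔ a = a ⊔ b := by
      apply Vk.ext
      show φ c ⊔ a.1 = a.1 ⊔ b.1
      have h6 := congrArg φ h3
      rw [h.sup, hwa, hm, sup_comm] at h6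
      exact h6
    have h6 : Vk.mk c ⊔ b = a ⊔ b := by
      apply Vk.ext
      show φ c ⊔ b.1 = a.1 ⊔ b.1
      have h6 := congrArg φ h4
      rw [h.sup, hwb, hm, sup_comm] at h6
      exact h6
    have h7 : z ≤ Vk.mk c := by
      show z.1 ≤ φ c
      rw [← hw1]
      exact h.mono hc.le
    have h8 : (Vk.mk c : Vk φ h) ≠ a ⊔ b := by
      intro he
      have h9 : φ c = a.1 ⊔ b.1 := congrArg Subtype.val he
      have h10 : a.1 ⊔ w ≤ c := by
        refine sup_le ?_ hc.le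
        calc a.1 ≤ a.1 ⊔ b.1 := le_sup_left
          _ = φ c := h9.symm
          _ ≤ c := h.le c
      exact hac (eq_of_le ha' hc h10)
    refine ⟨Vk.mk c, hza, hzb, cov3 hza hzb hab h7 h8 h5, hab, ?_, ?_, ?_⟩
    · intro he
      rw [← he, sup_idem] at h5
      have h9 : b ≤ a := by
        rw [h5]
        exact le_sup_right
      exact hab (eq_of_le hzb hza h9).symm
    · intro he
      rw [← he, sup_idem] at h6
      have h9 : a ≤ b := by
        rw [h6]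
        exact le_sup_left
      exact hab (eq_of_le hza hzb h9)
    · rw [← h5]
      exact le_sup_left
  · intro θ hc hD z a b c hd
    obtain ⟨hza, hzb, hzc, hab, hac, hbc, hcm⟩ := hd
    obtain ⟨w, hw1, hw3, hw4, hw5, hw6, hw2, hwa, hwb⟩ := hL z a b hza hzb hab
    have ha' := hP.1 _ _ hw3
    have hb' := hP.1 _ _ hw4
    have hwc : φ (c.1 ⊔ w) = c.1 := by
      rw [h.sup, c.2, hw1]
      exact sup_eq_left.2 hzc.le
    have h3' : a ⊔ c = a ⊔ b := sup_dia hza hzb hzc hab hac hcm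
    have h3 : a.1 ⊔ c.1 = a.1 ⊔ b.1 := congrArg (fun x : Vk φ h => x.1) h3'
    have hcab : c.1 ≤ a.1 ⊔ b.1 := hcm
    have hm : φ (a.1 ⊔ b.1) = a.1 ⊔ b.1 := (a ⊔ b).2
    have h4 : w ⋖ c.1 ⊔ w := by
      refine cov3 ha' hb' hw5 le_sup_right ?_ ?_
      · rw [hw6]
        intro he
        have h5 := congrArg φ he
        rw [hwc, hm] at h5
        have h6 : c = a ⊔ b := Vk.ext h5
        have h7 : a ≤ c := by
          rw [h6]
          exact le_sup_left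
        exact hac (eq_of_le hza hzc h7)
      · rw [hw6, sup_sup_sup_comm, sup_idem, sup_comm c.1, h3]
        exact sup_eq_left.2 hw2
    have h5 : Dia w (a.1 ⊔ w) (b.1 ⊔ w) (c.1 ⊔ w) := by
      refine ⟨ha', hb', h4, hw5, ?_, ?_, ?_⟩
      · intro he
        have h6 := congrArg φ he
        rw [hwa, hwc] at h6
        exact hac (Vk.ext h6)
      · intro he
        have h6 := congrArg φ he
        rw [hwb, hwc] at h6
        exact hbc (Vk.ext h6)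
      · rw [hw6]
        exact sup_le hcab hw2
    have h6 := hD _ _ _ _ h5
    rw [hw6] at h6
    have h7 : Vk.mk (a.1 ⊔ b.1) = (a ⊔ b : Vk φ h) := Vk.mk_coe (a ⊔ b)
    have h8 : Vk.mk w = z := Vk.ext hw1
    have h9 : (Vk.mk (θ (a.1 ⊔ b.1)) : Vk φ h) = Vk.th θ hc (a ⊔ b) := by
      apply Vk.ext
      show φ (θ (a.1 ⊔ b.1)) = θ (a.1 ⊔ b.1)
      rw [hc, hm]
    have h10 : (Vk.mk (a.1 ⊔ b.1) : Vk φ h) = Vk.mk (w ⊔ (a.1 ⊔ b.1) ⊓ θ (a.1 ⊔ b.1)) :=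
      congrArg (Vk.mk (h := h)) h6
    have h11 : (Vk.mk (w ⊔ (a.1 ⊔ b.1) ⊓ θ (a.1 ⊔ b.1)) : Vk φ h) =
        Vk.mk w ⊔ Vk.mk (a.1 ⊔ b.1) ⊓ Vk.mk (θ (a.1 ⊔ b.1)) := by
      rw [Vk.mk_sup, Vk.mk_inf]
    exact h7.symm.trans (h10.trans (h11.trans (by rw [h7, h8, h9])))

end MP81M
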