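import Pool.Agent.Lib.MP_81b71e_M.Trp
import Pool.Agent.Lib.MP_81b71e_M.Dm2
import Pool.Agent.Lib.MP_81b71e_M.Inv
import Pool.Agent.Lib.MP_81b71e_M.Uni
import Pool.Agent.Lib.MP_81b71e_M.Fra
import Pool.Agent.Lib.MP_81b71e_M.Lin
import Pool.Agent.Lib.MP_81b71e_M.Cor
import Pool.Agent.Lib.MP_81b71e_M.Vmo
import Pool.Agent.Lib.MP_81b71e_M.Lft
import Pool.Agent.Lib.MP_81b71e_M.Vth
import Pool.Agent.Lib.MP_81b71e_M.Pri
import Pool.Agent.Lib.MP_81b71e_M.Thi
import Pool.Agent.Lib.MP_81b71e_M.Enu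
import Pool.Agent.Lib.MP_81b71e_al.Lines
import Pool.Agent.Lib.MP_81b71e_al.Cd.Ext
import Pool.Agent.Lib.MP_81b71e_H.Main

/-!
# MP_81b71e_al: the theorem on modular lattices
-/

set_option autoImplicit false

namespace MP81M

open Pool.Agent.Lib.MP_81b71e_al

universe u

theorem m_Dm2 : S_Dm2.{u} := tDm2 tTrp
theorem m_Inv : S_Inv.{u} := tInv tTrp m_Dm2
theorem m_Uni : S_Uni.{u} := tUni m_Dm2
theorem m_Vth : S_Vth.{u} := tVth tVmo tLft
theorem m_Thi : S_Thi.{u} := tThi m_Uni tFra tLin m_Inv tCor tVmo m_Vth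
theorem m_Enu : S_Enu.{u} := tEnu tPri m_Thi

/-- the comparison law follows from the condition on the elements below a nonsymmetric one -/
theorem cl_of_low {V : Type u} [SemilatticeSup V] (σ : V → V) (h1 : ∀ x, σ (σ x) = x)
    (h2 : ∀ x y, σ (x ⊔ y) = σ x ⊔ σ y) (S : V → Prop) (hS1 : ∀ x y, S x → S y → S (x ⊔ y))
    (hS2 : ∀ x, S x → S (σ x))
    (low : ∀ x y, S x → S y → σ x ≠ x → y ≤ x → y = x ∨ y ≤ σ x) (t r q g k : V) (ht : S t)
    (hr : S r) (hq : S q) (hrq : r ≤ q ⊔ σ t) (_hqr : q ≤ r ⊔ t) (htr : t ≤ σ r ⊔ q)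
    (hk : σ t ≤ k) (hkg : k ≤ σ t ⊔ g) (hgk : g ≤ t ⊔ k) :
    r ⊔ g ≤ q ⊔ k ∨ q ⊔ k ≤ r ⊔ g := by
  have mono : ∀ {x y : V}, x ≤ y → σ x ≤ σ y := by
    intro x y h
    have h3 : x ⊔ y = y := sup_eq_right.2 h
    rw [← h3, h2]
    exact le_sup_left
  by_cases htB : t ≤ q ⊔ k
  · left
    refine sup_le ?_ ?_
    · exact hrq.trans (sup_le le_sup_left (hk.trans le_sup_right))
    · exact hgk.trans (sup_le htB le_sup_right)
  · right
    have hσB : σ t ≤ q ⊔ k := hk.trans le_sup_right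
    have htns : σ (σ t) ≠ σ t := by
      intro h
      rw [h1] at h
      exact htB (h.le.trans hσB)
    have hqt : q ≤ σ t ∨ σ t ≤ q := by
      by_contra hcon
      rw [not_or] at hcon
      apply htB
      have hs : σ (q ⊔ σ t) = q ⊔ σ t := by
        by_contra hns
        have e1 := low _ _ (hS1 _ _ hq (hS2 _ ht)) hq hns le_sup_left
        have e2 := low _ _ (hS1 _ _ hq (hS2 _ ht)) (hS2 _ ht) hns le_sup_right
        have e1' : q ≤ σ (q ⊔ σ t) := by
          rcases e1 with e1 | e1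
          · exfalso
            apply hcon.2
            rw [e1]
            exact le_sup_right
          · exact e1
        have e2' : σ t ≤ σ (q ⊔ σ t) := by
          rcases e2 with e2 | e2
          · exfalso
            apply hcon.1
            rw [e2]
            exact le_sup_left
          · exact e2
        have e3 : q ⊔ σ t ≤ σ (q ⊔ σ t) := sup_le e1' e2'
        have e4 := mono e3
        rw [h1] at e4
        exact hns (le_antisymm e4 e3)
      have e5 : t ≤ σ (q ⊔ σ t) := by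
        rw [h2, h1]
        exact le_sup_right
      rw [hs] at e5
      exact e5.trans (sup_le le_sup_left hσB)
    rcases hqt with hqt | hqt
    · have hrt : r ≤ σ t := hrq.trans (sup_le hqt le_rfl)
      rcases low _ _ (hS2 _ ht) hr htns hrt with e | e
      · refine sup_le (hqt.trans ?_) ?_
        · rw [e]
          exact le_sup_left
        · rw [e]
          exact hkg
      · exfalso
        rw [h1] at e
        apply htB
        refine htr.trans (sup_le ((mono e).trans hσB) le_sup_left)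
    · have hqns : σ q ≠ q := by
        intro h
        apply htB
        have e := mono hqt
        rw [h1, h] at e
        exact e.trans le_sup_left
      have hrq' : r ≤ q := hrq.trans (sup_le le_rfl hqt)
      rcases low _ _ hq hr hqns hrq' with e | e
      · rw [e]
        refine sup_le le_sup_left (hkg.trans ?_)
        exact sup_le (hqt.trans le_sup_left) le_sup_right
      · exfalso
        apply htB
        have e' := mono e
        rw [h1] at e'
        exact htr.trans (sup_le (e'.trans le_sup_left) le_sup_left)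

section L

variable {L : Type u} [CompleteLattice L] [IsCompactlyGenerated L]

omit [IsCompactlyGenerated L] in
theorem exists_max {x : L} (hx : Order.height x ≠ ⊤) (S : Set L) (hne : S.Nonempty)
    (hb : ∀ s ∈ S, s ≤ x) : ∃ m ∈ S, ∀ s ∈ S, m ≤ s → s = m := by
  have hfin : ∀ s ∈ S, Order.height s ≠ ⊤ := fun s hs =>
    ne_top_of_le_ne_top hx (Order.height_mono (hb s hs))
  obtain ⟨N, hN⟩ := ENat.ne_top_iff_exists.1 hx
  have hbd : ∀ s ∈ S, (Order.height s).toNat ≤ N := by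
    intro s hs
    have h1 := Order.height_mono (hb s hs)
    rw [← hN, ← ENat.natCast_toNat (hfin s hs)] at h1
    exact_mod_cast h1
  have hne' : ((fun s : L => (Order.height s).toNat) '' S).Nonempty := hne.image _
  have hbdd : BddAbove ((fun s : L => (Order.height s).toNat) '' S) := by
    refine ⟨N, ?_⟩
    rintro _ ⟨s, hs, rfl⟩
    exact hbd s hs
  obtain ⟨m, hm, hm2⟩ := Nat.sSup_mem hne' hbdd
  refine ⟨m, hm, ?_⟩
  intro s hs hms
  by_contra hne2
  have hlt : m < s := lt_of_le_of_ne hms (fun h => hne2 h.symm)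
  have h1 : Order.height m < Order.height s :=
    Order.height_strictMono hlt (lt_of_le_of_ne le_top (hfin m hm))
  have h2 : (Order.height m).toNat < (Order.height s).toNat := by
    have h5 := h1
    rw [← ENat.natCast_toNat (hfin m hm), ← ENat.natCast_toNat (hfin s hs)] at h5
    exact_mod_cast h5
  have h3 : (Order.height s).toNat ≤ sSup ((fun s : L => (Order.height s).toNat) '' S) :=
    le_csSup hbdd ⟨s, hs, rfl⟩
  have h4 : (Order.height m).toNat = sSup ((fun s : L => (Order.height s).toNat) '' S) := hm2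
  omega

theorem compact_below (hfin : ∀ x : L, IsCompactElement x → Order.height x ≠ ⊤) (x y : L)
    (hx : IsCompactElement x) (hyx : y ≤ x) : IsCompactElement y := by
  obtain ⟨m, hm, hmax⟩ := exists_max (hfin x hx) {c : L | IsCompactElement c ∧ c ≤ y}
    ⟨⊥, Cd.compact_bot, bot_le⟩ (fun s hs => hs.2.trans hyx)
  have h1 : y = m := by
    apply le_antisymm _ hm.2
    rw [← sSup_compact_le_eq y]
    apply sSup_le
    intro c hc
    have h2 := hmax (m ⊔ c) ⟨Cd.compact_sup hm.1 hc.1, sup_le hm.2 hc.2⟩ le_sup_left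
    rw [← h2]
    exact le_sup_right
  rw [h1]
  exact hm.1

/-- the lattice of the compact elements -/
def Kc (L : Type u) [CompleteLattice L]
    (_ : ∀ x y : L, IsCompactElement x → y ≤ x → IsCompactElement y) : Type u :=
  {x : L // IsCompactElement x}

variable {hb : ∀ x y : L, IsCompactElement x → y ≤ x → IsCompactElement y}

instance : Lattice (Kc L hb) :=
  Subtype.lattice (P := fun x : L => IsCompactElement x) (fun _ _ hx hy => Cd.compact_sup hx hy)
    (fun x _ hx _ => hb x _ hx inf_le_left)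

instance : OrderBot (Kc L hb) where
  bot := ⟨⊥, Cd.compact_bot⟩
  bot_le x := by
    show ⊥ ≤ x.1
    exact bot_le

omit [IsCompactlyGenerated L] in
theorem Kc.cov {x y : Kc L hb} : x ⋖ y ↔ x.1 ⋖ y.1 := by
  constructor
  · rintro ⟨h1, h2⟩
    refine ⟨h1, fun c hc1 hc2 => ?_⟩
    exact h2 (c := ⟨c, hb y.1 c y.2 hc2.le⟩) hc1 hc2
  · rintro ⟨h1, h2⟩
    exact ⟨h1, fun c hc1 hc2 => h2 (c := c.1) hc1 hc2⟩

omit [IsCompactlyGenerated L] in
theorem Kc.pj {p q : Kc L hb × Kc L hb} (h : Pj p q) : Pj (p.1.1, p.2.1) (q.1.1, q.2.1) := by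
  induction h with
  | rel p q h =>
    obtain ⟨h1, h2, h3, h4⟩ := h
    exact Relation.EqvGen.rel _ _ ⟨Kc.cov.1 h1, Kc.cov.1 h2, congrArg Subtype.val h3,
      congrArg Subtype.val h4⟩
  | refl p => exact Relation.EqvGen.refl _
  | symm p q _ ih => exact Relation.EqvGen.symm _ _ ih
  | trans p q r _ _ ih1 ih2 => exact Relation.EqvGen.trans _ _ _ ih1 ih2

omit [IsCompactlyGenerated L] in
theorem Kc.dia {z a b c : Kc L hb} : Dia z a b c ↔ Dia z.1 a.1 b.1 c.1 := by
  have hne : ∀ x y : Kc L hb, x ≠ y ↔ x.1 ≠ y.1 := fun x y =>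
    not_congr ⟨fun h => congrArg Subtype.val h, fun h => Subtype.ext h⟩
  unfold Dia
  rw [Kc.cov, Kc.cov, Kc.cov, hne, hne, hne]
  exact Iff.rfl

/-- the involution on the compact elements -/
def Kc.th (θ : L ≃o L) (hθ : ∀ x, θ (θ x) = x) : Kc L hb ≃o Kc L hb where
  toFun x := ⟨θ x.1, Cd.compact_map θ x.2⟩
  invFun x := ⟨θ x.1, Cd.compact_map θ x.2⟩
  left_inv x := Subtype.ext (hθ x.1)
  right_inv x := Subtype.ext (hθ x.1)
  map_rel_iff' {x y} := by
    show θ x.1 ≤ θ y.1 ↔ x.1 ≤ y.1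
    exact θ.le_iff_le

open Classical in
/-- extension of an operator to `L` -/
noncomputable def ext (φ : Kc L hb → Kc L hb) (x : L) : L :=
  if h : IsCompactElement x then (φ ⟨x, h⟩).1 else x

omit [IsCompactlyGenerated L] in
theorem ext_eq (φ : Kc L hb → Kc L hb) {x : L} (h : IsCompactElement x) :
    ext φ x = (φ ⟨x, h⟩).1 := by
  unfold ext
  rw [dif_pos h]

omit [IsCompactlyGenerated L] in
theorem ext_ctr (θ : L ≃o L) (hθ : ∀ x, θ (θ x) = x) (φ : Kc L hb → Kc L hb)
    (h : Ctr (Kc.th (hb := hb) θ hθ) φ) : MP81H.Ctr θ (ext φ) where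
  cp x hx := by
    rw [ext_eq φ hx]
    exact (φ ⟨x, hx⟩).2
  sp x y hx hy := by
    rw [ext_eq φ hx, ext_eq φ hy, ext_eq φ (Cd.compact_sup hx hy)]
    exact congrArg Subtype.val (h.sup ⟨x, hx⟩ ⟨y, hy⟩)
  cm x hx := by
    rw [ext_eq φ hx, ext_eq φ (Cd.compact_map θ hx)]
    exact congrArg Subtype.val (h.comm ⟨x, hx⟩)
  le x hx := by
    rw [ext_eq φ hx]
    exact h.le ⟨x, hx⟩

theorem suff [IsModularLattice L] (hfin : ∀ x : L, IsCompactElement x → Order.height x ≠ ⊤)
    (hthk : Thk L) (θ : L ≃o L) (hθ : ∀ x, θ (θ x) = x) (hdm : Dm θ) :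
    Realizable L {x | θ x = x} := by
  classical
  have hb := compact_below hfin
  let θ' : Kc L hb ≃o Kc L hb := Kc.th θ hθ
  have hmod : IsModularLattice (Kc L hb) := ⟨by
    intro x y z hxz
    show (x.1 ⊔ y.1) ⊓ z.1 ≤ x.1 ⊔ y.1 ⊓ z.1
    exact IsModularLattice.sup_inf_le_assoc_of_le y.1 hxz⟩
  have hFh : Fh (Kc L hb) := by
    intro x
    apply ne_top_of_le_ne_top (hfin x.1 x.2)
    exact Order.height_le_height_apply_of_strictMono (fun x : Kc L hb => x.1)
      (fun _ _ h => h) x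
  have hThk : Thk (Kc L hb) := by
    intro z a b hza hzb hne hpj
    obtain ⟨c, hc⟩ := hthk z.1 a.1 b.1 (Kc.cov.1 hza) (Kc.cov.1 hzb)
      (fun h => hne (Subtype.ext h)) (Kc.pj hpj)
    have hcc : IsCompactElement c := hb (a.1 ⊔ b.1) c (Cd.compact_sup a.2 b.2) hc.2.2.2.2.2.2
    exact ⟨⟨c, hcc⟩, Kc.dia.2 hc⟩
  have hDm : Dm θ' := by
    intro z a b c h
    exact Subtype.ext (hdm z.1 a.1 b.1 c.1 (Kc.dia.1 h))
  have hθ' : ∀ x, θ' (θ' x) = x := fun x => Subtype.ext (hθ x.1)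
  have henu := m_Enu (Kc L hb) hFh hThk θ' hθ' hDm
  have hlow : ∀ φ : {φ : Kc L hb → Kc L hb // Good θ' φ}, ∀ x y : L, IsCompactElement x →
      IsCompactElement y → ext φ.1 x = x → ext φ.1 y = y → θ x ≠ x → y < x → y ≠ ⊥ →
      y ≤ θ x ∧ ∃ ψ : L → L, MP81H.Ctr θ ψ ∧ y ≤ ψ x ∧ θ (ψ x) = ψ x := by
    intro φ x y hx hy hφx hφy hns hyx hy0
    rw [ext_eq φ.1 hx] at hφx
    rw [ext_eq φ.1 hy] at hφy
    obtain ⟨h1, ψ, h2, h3, h4⟩ := φ.2.low ⟨x, hx⟩ ⟨y, hy⟩ (Subtype.ext hφx) (Subtype.ext hφy)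
      (fun h => hns (congrArg Subtype.val h)) hyx (fun h => hy0 (congrArg Subtype.val h))
    refine ⟨h1, ext ψ, ext_ctr θ hθ ψ h2, ?_, ?_⟩
    · rw [ext_eq ψ hx]
      exact h3
    · rw [ext_eq ψ hx]
      exact congrArg Subtype.val h4
  refine MP81H.m_Ker L θ {φ : Kc L hb → Kc L hb // Good θ' φ} (fun φ => ext φ.1) hθ
    (fun φ => ext_ctr θ hθ φ.1 φ.2.toCtr) ?_ ?_ ?_ ?_
  · intro φ x hx
    show ext φ.1 (ext φ.1 x) = ext φ.1 x
    rw [ext_eq φ.1 hx, ext_eq φ.1 (φ.1 ⟨x, hx⟩).2]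
    exact congrArg Subtype.val (φ.2.idem ⟨x, hx⟩)
  · intro x hx
    obtain ⟨T, hT, hle⟩ := henu ⟨x, hx⟩
    refine ⟨T.attach.image (fun φ => ⟨φ.1, hT φ.1 φ.2⟩), ?_⟩
    have key : ∀ (w : L), (∀ φ (hφ : φ ∈ T), (φ ⟨x, hx⟩).1 ≤ w) → x ≤ w := by
      intro w hw
      have h1 : ∀ S : Finset (Kc L hb → Kc L hb), S ⊆ T →
          (S.sup (fun φ => φ ⟨x, hx⟩) : Kc L hb).1 ≤ w := by
        intro S
        induction S using Finset.induction_on with
        | empty =>
          intro _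
          rw [Finset.sup_empty]
          exact bot_le
        | insert φ S _ ih =>
          intro hS
          rw [Finset.sup_insert]
          exact sup_le (hw φ (hS (Finset.mem_insert_self _ _)))
            (ih (fun ψ hψ => hS (Finset.mem_insert_of_mem hψ)))
      exact le_trans (show x ≤ (T.sup (fun φ => φ ⟨x, hx⟩) : Kc L hb).1 from hle)
        (h1 T (Finset.Subset.refl T))
    apply key
    intro φ hφ
    have h2 : (⟨φ, hT φ hφ⟩ : {φ : Kc L hb → Kc L hb // Good θ' φ}) ∈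
        T.attach.image (fun φ => (⟨φ.1, hT φ.1 φ.2⟩ :
          {φ : Kc L hb → Kc L hb // Good θ' φ})) :=
      Finset.mem_image.2 ⟨⟨φ, hφ⟩, Finset.mem_attach _ _, rfl⟩
    have h3 := Finset.le_sup
      (f := fun φ : {φ : Kc L hb → Kc L hb // Good θ' φ} => ext φ.1 x) h2
    refine le_trans (le_of_eq ?_) h3
    exact (ext_eq φ hx).symm
  · intro φ t r q g k ht hr hq hg hk ft fr fq fg fk
    have hctr := ext_ctr θ hθ φ.1 φ.2.toCtr
    have := cl_of_low (V := L) θ hθ (fun x y => map_sup θ x y)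
      (fun x => IsCompactElement x ∧ ext φ.1 x = x)
      (fun x y hx hy => ⟨Cd.compact_sup hx.1 hy.1, by
        rw [hctr.sp x y hx.1 hy.1, hx.2, hy.2]⟩)
      (fun x hx => ⟨Cd.compact_map θ hx.1, by rw [hctr.cm x hx.1, hx.2]⟩)
      (by
        intro x y hx hy hns hyx
        by_cases hxy : y = x
        · exact Or.inl hxy
        · right
          by_cases h0 : y = ⊥
          · rw [h0]
            exact bot_le
          · exact (hlow φ x y hx.1 hy.1 hx.2 hy.2 hns (lt_of_le_of_ne hyx hxy) h0).1)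
      t r q g k ⟨ht, ft⟩ ⟨hr, fr⟩ ⟨hq, fq⟩
    exact this
  · intro φ x y hx hy fx fy hns hyx h0
    obtain ⟨-, ψ, h1, h2, h3⟩ := hlow φ x y hx hy fx fy hns hyx h0
    exact ⟨ψ, h1, h2, Or.inl h3⟩

omit [IsCompactlyGenerated L] in
theorem nec [IsModularLattice L] {L₂ : Set L} (hR : Realizable L L₂) :
    ∃ θ : L ≃o L, (∀ x, θ (θ x) = x) ∧ Dm θ ∧ L₂ = {x | θ x = x} := by
  obtain ⟨θ, hθ, hL⟩ := hR.exists_involution
  refine ⟨θ, hθ, ?_, hL⟩
  rintro z a b c ⟨hza, hzb, hzc, hab, hac, hbc, hcab⟩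
  have hinf : ∀ {x y : L}, z ⋖ x → z ⋖ y → x ≠ y → x ⊓ y = z := by
    intro x y hx hy hxy
    rcases hx.eq_or_eq (le_inf hx.le hy.le) inf_le_left with h | h
    · exact h
    · exfalso
      have h2 : x ≤ y := by
        rw [← h]
        exact inf_le_right
      rcases hy.eq_or_eq hx.le h2 with h3 | h3
      · exact hx.ne h3.symm
      · exact hxy h3
  have hcov : ∀ {x y : L}, z ⋖ x → z ⋖ y → x ≠ y → x ⋖ x ⊔ y := by
    intro x y hx hy hxy
    have h1 : x ⊓ y ⋖ y := by
      rw [hinf hx hy hxy]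
      exact hy
    exact h1.sup_of_inf_right
  have ham : a ⋖ a ⊔ b := hcov hza hzb hab
  have hbm : b ⋖ a ⊔ b := by
    rw [sup_comm]
    exact hcov hzb hza hab.symm
  have hca : c ⊔ a = a ⊔ b := by
    rcases ham.eq_or_eq (le_sup_right : a ≤ c ⊔ a) (sup_le hcab ham.le) with h | h
    · exfalso
      have h2 : c ≤ a := by
        rw [← h]
        exact le_sup_left
      rcases hza.eq_or_eq hzc.le h2 with h3 | h3
      · exact hzc.ne h3.symm
      · exact hac h3.symm
    · exact h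
  have hcm : c ⋖ a ⊔ b := by
    rw [← hca]
    exact hcov hzc hza hac.symm
  obtain ⟨κ, hκ, h⟩ := diamond hR hza hzb hzc ham hbm hcm hab hac hbc
  rw [hL] at hκ
  have hκ' : θ κ = κ := hκ
  have hκm : κ ≤ a ⊔ b := by
    rw [← h]
    exact le_sup_right
  apply le_antisymm
  · calc a ⊔ b = z ⊔ κ := h.symm
      _ ≤ z ⊔ ((a ⊔ b) ⊓ θ (a ⊔ b)) := by
        refine sup_le_sup_left (le_inf hκm ?_) z
        rw [← hκ']
        exact θ.monotone hκm
  · exact sup_le (hza.le.trans ham.le) inf_le_left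

theorem modular [IsModularLattice L]
    (hfin : ∀ x : L, IsCompactElement x → Order.height x ≠ ⊤) (hthk : Thk L) (L₂ : Set L) :
    Realizable L L₂ ↔ ∃ θ : L ≃o L, (∀ x, θ (θ x) = x) ∧ Dm θ ∧ L₂ = {x | θ x = x} := by
  constructor
  · exact nec
  · rintro ⟨θ, h1, h2, rfl⟩
    exact suff hfin hthk θ h1 h2

end L

end MP81M
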