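import Pool.Agent.Lib.MP_81b71e_M.Defs

/-!
# MP_81b71e_al, modular lattices: statements

HOW TO USE THIS FILE. Every statement `S_Name` is to be proved in the file `Pool/Agent/Lib/MP_81b71e_M/Name.lean` as
`theorem tName (h1 : S_X) (h2 : S_Y) .. : S_Name` (the hypotheses are the statements listed under `uses`), namespace `MP81M`. The docstring
contains the complete proof. `v`, `^` are written for `⊔`, `⊓`; `x` is called symmetric if `θ x = x`.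

Basic facts for a modular lattice `K` (private lemmas, prove them where needed):
(B1) if `z ⋖ a`, `z ⋖ b`, `a ≠ b` then `a ^ b = z`, `a ⋖ a v b`, `b ⋖ a v b` (Mathlib: `CovBy.sup_of_inf_left`, `CovBy.sup_of_inf_right` or similar), and every `w` with `z < w < a v b` satisfies `z ⋖ w ⋖ a v b`.
(B2) if `x ⋖ y` then `x ^ u ⋖ y ^ u` or `x ^ u = y ^ u`, and `x v u ⋖ y v u` or `x v u = y v u`; `x ^ (y v z) = y v (x ^ z)` for `y ≤ x`.
(B3) if all heights are finite (`Fh K`): `y < x` implies `Order.height y < Order.height x`, so `<` is well founded (induction), every nonempty set `S` with an upper bound `x` has a maximal element (choose the height maximal), and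
for `y < x` there are `a, b` with `y ≤ a ⋖ x`, `y ⋖ b ≤ x`.
(B4) `Dia z a b c` and `m = a v b`: `a v c = b v c = m`, `a, b, c ⋖ m`; the condition `Dia z a b c` is symmetric in `a, b, c`.
-/

set_option autoImplicit false

namespace MP81M

universe u

/-- **Trp** (80 lines). A diamond is transposed down.

Proof. `m = z v u` where `m = a v b`. `u ≤ m`. For `x = a, b, c`: `z v (x ^ u) = x ^ (z v u) = x ^ m = x` (modular law, `z ≤ x`). `z ^ u ⋖ x ^ u` (B2; they are different, otherwise `x = z v (x ^ u) = z`).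
The three elements `x ^ u` are different, and `(a ^ u) v (b ^ u) = u`: it is `≤ u`; the elements `p = a ^ u`, `q = b ^ u` are `≤ u`, `z v p v q = a v b = m`; modular law: `u = u ^ (z v (p v q)) = (p v q) v (u ^ z) = p v q`
as `u ^ z ≤ p`. So `c ^ u ≤ u = p v q`. `Tr`: `(x ^ u) ^ z = z ^ u`, `(x ^ u) v z = x`. -/
def S_Trp : Prop :=
  ∀ (K : Type u) [Lattice K] [IsModularLattice K] (z a b c u : K), Dia z a b c → z ⊔ u = a ⊔ b →
    Dia (z ⊓ u) (a ⊓ u) (b ⊓ u) (c ⊓ u) ∧ (a ⊓ u) ⊔ (b ⊓ u) = u ∧ Tr (z ⊓ u, a ⊓ u) (z, a) ∧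
      Tr (z ⊓ u, b ⊓ u) (z, b) ∧ Tr (z ⊓ u, c ⊓ u) (z, c)

/-- **Dm2** (200 lines, uses `S_Trp`). If the top of a diamond is symmetric then the bottom is symmetric.

Proof. This is the second half of the proof of `bot_mem_iff` in `Pool/Agent/Lib/MP_81b71e_al/Diamonds.lean`: copy it, with `hdia` replaced by `Dm θ` (for a diamond `Dia z a b c`, `m = a v b`, the element
`κ = m ^ θ m` is symmetric and `z v κ = m`), `x ∈ L₂` by `θ x = x`. -/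
def S_Dm2 : Prop :=
  ∀ (K : Type u) [Lattice K] [IsModularLattice K] (θ : K ≃o K), (∀ x, θ (θ x) = x) → Dm θ →
    ∀ z a b c : K, Dia z a b c → θ (a ⊔ b) = a ⊔ b → θ z = z

/-- **Inv** (100 lines, uses `S_Trp`, `S_Dm2`). The projectivity class of a side of a diamond is invariant.

Proof. `m = a v b`, `u = m ^ θ m` (symmetric), `z v u = m` by `Dm θ`. By `S_Trp` there is the diamond `z₀ = z ^ u`, `a₀ = a ^ u`, `b₀, c₀` with top `u`, and `(z₀, a₀) ↗ (z, a)`. By `S_Dm2` `θ z₀ = z₀`. `z₀ ⋖ θ a₀ ≤ θ u = u`.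
`(z₀, a₀)` and `(z₀, θ a₀)` are projective: if `θ a₀ = a₀` clear; otherwise choose `y ∈ {b₀, c₀}` with `y ≠ θ a₀`: `(z₀, a₀) ↗ (y, u)` and `(z₀, θ a₀) ↗ (y, u)` (B1: `y v θ a₀ = u` because `y ⋖ u`). And
`(z₀, θ a₀) = (θ z₀, θ a₀) ↗ (θ z, θ a)`, the image of `(z₀, a₀) ↗ (z, a)` under `θ`. -/
def S_Inv : Prop :=
  ∀ (K : Type u) [Lattice K] [IsModularLattice K] (θ : K ≃o K), (∀ x, θ (θ x) = x) → Dm θ →
    ∀ z a b c : K, Dia z a b c → Pj (z, a) (θ z, θ a)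

/-- **Uni** (120 lines, uses `S_Dm2`). If all squares are thick, a nonsymmetric element has only one lower cover, and this is symmetric.

Proof. CLAIM A: if `z ⋖ s`, `θ z = z`, `θ s ≠ s`, `s ⋖ s'`, then `θ s' = s'`. Let `ℓ = s v θ s` (symmetric); `z ⋖ θ s`, so `s ⋖ ℓ` (B1). Suppose `s' ≠ ℓ`. There is `Dia s s' ℓ c`. With `m = s' v ℓ`: `m = s v (m ^ θ m)` by `Dm θ`. `s ≤ ℓ ≤ m` and `ℓ = θ ℓ ≤ θ m`, so
`s ≤ m ^ θ m`, `m = m ^ θ m`, so `m ≤ θ m`, `θ m = m`. By `S_Dm2` `θ s = s`, a contradiction. So `s' = ℓ`. CLAIM B: if `θ t ≠ t` and `w ⋖ t` then `θ w = w`. Induction on `t` (B3): suppose `θ w ≠ w`; `w ≠ ⊥`; let `v ⋖ w`; by induction (for `w`) `θ v = v`; by Claim A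
(`z = v`, `s = w`, `s' = t`) `θ t = t`, a contradiction. Now let `θ t ≠ t`, so `t ≠ ⊥`; let `s ⋖ t`; `θ s = s`. For `y < t` let `y ≤ w ⋖ t` (B3); if `w ≠ s` then `t = s v w` is symmetric, a contradiction. So `y ≤ s`. -/
def S_Uni : Prop :=
  ∀ (M : Type u) [Lattice M] [OrderBot M] [IsModularLattice M] (θ : M ≃o M), Fh M →
    (∀ x, θ (θ x) = x) → Dm θ → (∀ z a b : M, z ⋖ a → z ⋖ b → a ≠ b → ∃ c, Dia z a b c) →
    ∀ t, θ t ≠ t → ∃ s, Ji s t ∧ θ s = s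

/-- **Fra** (200 lines). The meet of the lower covers is a join endomorphism.

Proof. `Z x = {z ≤ x | ∀ w ⋖ x, z ≤ w}` contains `⊥` and is closed under joins, so it has a greatest element `Φ x` (B3: a maximal one is the greatest). It is determined by this property, so `Φ (θ x) = θ (Φ x)`; if `Ji s t` then `Φ t = s` (the only lower cover is `s`).
Monotone: let `x ≤ y`, `w ⋖ y`. If `x ≤ w` then `Φ x ≤ w`. Otherwise `x v w = y` and `x ^ w ⋖ x` (B2), `Φ x ≤ x ^ w ≤ w`. So `Φ x ∈ Z y`.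
(F) If `e < x` then there is `r ≤ x` with not `r ≤ e` and `r ^ e ≤ Φ x`: choose `r ≤ x` minimal with `r v e = x` (`r = x` is possible). For `w ⋖ x`: suppose not `r ^ e ≤ w`, so `w v (r ^ e) = x`. Then `(r ^ w) v (r ^ e) = r ^ (w v (r ^ e)) = r` (modular law), so `(r ^ w) v e ≥ (r ^ w) v (r ^ e) v e = x`; by
minimality `r ^ w = r`, `r ≤ w`, so `r ^ e ≤ w`, a contradiction. So `r ^ e ∈ Z x`. `r ≤ e` would give `e = x`.
`Φ (x v y) ≤ p := Φ x v Φ y`: let `m = x v y`, `u = Φ m v p ≤ m` and let `c ≤ m` be maximal with `p ≤ c`, `c ^ u ≤ p` (`c = p` is possible). Claim `c v u = m`: otherwise not `x ≤ c v u` or not `y ≤ c v u`; say `x`. Let `e = x ^ (c v u) < x` and `r` as in (F), so `r ≤ x`, not `r ≤ c v u`,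
`r ^ (c v u) = r ^ e ≤ Φ x ≤ p`. `c' = c v r > c`, `c' ^ u ≤ (c v r) ^ (c v u) = c v (r ^ (c v u)) ≤ c v p = c`, so `c' ^ u ≤ c ^ u ≤ p`, a contradiction to the maximality. If `c = m` then `u = c ^ u ≤ p` and we are done. Otherwise let `c ≤ d ⋖ m` (B3): `Φ m ≤ d`, `p ≤ d`, so `u ≤ d`, `m = c v u ≤ d`, a contradiction. -/
def S_Fra : Prop :=
  ∀ (M : Type u) [Lattice M] [OrderBot M] [IsModularLattice M], Fh M → ∃ Φ : M → M,
    (∀ θ : M ≃o M, Ctr θ Φ) ∧ ∀ s t, Ji s t → Φ t = s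

/-- **Lin** (200 lines). Join irreducible elements which are not join prime.

Proof. Let `k₁ ≤ x` be minimal with `j ≤ k₁ v y`, then `k₂ ≤ y` minimal with `j ≤ k₁ v k₂` (B3). Then: not `j ≤ k v k₂` for `k < k₁` (as `k v k₂ ≤ k v y`), not `j ≤ k₁ v k` for `k < k₂`. `k₁, k₂ ≠ ⊥` (otherwise `j ≤ y` or `j ≤ x`). Let `n = k₁ v k₂`. `j v k₂ = n`: `k₁' = k₁ ^ (j v k₂)` satisfies
`k₁' v k₂ = (k₁ v k₂) ^ (j v k₂) = j v k₂ ≥ j` (modular law), so `k₁' = k₁`. In the same way `j v k₁ = n`. Let `l₁ ⋖ k₁`, `l₂ ⋖ k₂`. CLAIM: `i v k₂ = l₁ v k₂ ⋖ n`. `l₁ v k₂ < n` (as not `j ≤ l₁ v k₂`), so `l₁ v k₂ ⋖ n` (B2). `j ^ (l₁ v k₂) < j`, so it is `≤ i`; `j v (l₁ v k₂) = n` (covering), so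
`j ^ (l₁ v k₂) ⋖ j`, so it is equal to `i`, `i ≤ l₁ v k₂`. `i v k₂ ≤ l₁ v k₂ < n = j v k₂`, and by (B2) `i v k₂ ⋖ j v k₂ = n`; so `i v k₂ = l₁ v k₂`. In the same way `i v k₁ = k₁ v l₂ ⋖ n`. Let `g = i v l₁ v l₂`. `g ≤ i v k₂` (as `l₁ ≤ i v k₂`), so not `j ≤ g` and not `k₁ ≤ g` (otherwise
`n = j v k₂ ≤ i v k₂` or `n = k₁ v k₂ ≤ i v k₂`). `g ≤ i v k₁`, so not `k₂ ≤ g`. By (B2) `g ⋖ g v j`, `g ⋖ g v k₁`, `g ⋖ g v k₂`. The join of any two of these elements is `n` (`g ≤ n`). They are different: if two of them were equal then their join `n` would be equal to them, `g ⋖ n`, and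
`g ≤ i v k₂ < n` would give `g = i v k₂ ≥ k₂`. So `Dia g (j v g) (k₁ v g) (k₂ v g)`, and `j ^ g = i` as `i ≤ g`, not `j ≤ g`. -/
def S_Lin : Prop :=
  ∀ (K : Type u) [Lattice K] [OrderBot K] [IsModularLattice K], Fh K → ∀ i j : K, Ji i j →
    (∃ x y, j ≤ x ⊔ y ∧ ¬ j ≤ x ∧ ¬ j ≤ y) → ∃ g b c, Dia g (j ⊔ g) b c ∧ Tr (i, j) (g, j ⊔ g)

/-- **Cor** (200 lines). The congruence which collapses the prime quotients outside of `P`.

Proof. `Fr P x y` is only used for `x ≤ y`. (F1) `Fr P x y`, `x ≤ x'`, `y' ≤ y` imply `Fr P x' y'`. (F2) `Fr P (x ^ y) x ↔ Fr P y (x v y)`. ⇐: let `P a b`, `x ^ y ≤ a ⋖ b ≤ x`: `(a, b) ↗ (a v y, b v y)`: `b ^ (a v y) = a v (b ^ y) = a` (`b ^ y ≤ x ^ y ≤ a`), `b v (a v y) = b v y`, and `a v y ⋖ b v y`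
(B2). ⇒: for `y ≤ c ⋖ d ≤ x v y`: `(c ^ x, d ^ x) ↗ (c, d)`: `(d ^ x) v c = d ^ (x v c) = d` (`x v c ≥ x v y ≥ d`), `(d ^ x) ^ c = c ^ x`, `c ^ x ⋖ d ^ x` (B2; not equal, otherwise `d = (d ^ x) v c = c`). (F3) `x ≤ y ≤ z`, `Fr P x y`, `Fr P y z` imply `Fr P x z`: let `x ≤ a ⋖ b ≤ z`. If not `b ^ y ≤ a`:
`(a ^ y, b ^ y) ↗ (a, b)` (`(b ^ y) v a = b`, `(b ^ y) ^ a = a ^ y`, covering by (B2)), in `[x, y]`. Otherwise `(a, b) ↗ (a v y, b v y)`: `b ^ (a v y) = a v (b ^ y) = a`; in `[y, z]`.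
If `Fr P y x`, `Fr P y' x` (`y, y' ≤ x`) then `Fr P (y ^ y') x`: `Fr P y (y v y')` by (F1), `Fr P (y ^ y') y'` by (F2), and (F3). So there is a least `y ≤ x` with `Fr P y x` (B3: take the height minimal): `φ x`. `Krn`: `le` clear. (G) `x ≤ y`, `Fr P x y` imply `φ x = φ y`: `Fr P (φ x) y` by (F3), so `φ y ≤ φ x ≤ x`;
`Fr P (φ y) x` by (F1), so `φ x ≤ φ y`. `idem`: (G) for `φ x ≤ x`. Monotone: `x ≤ y`: `Fr P (φ y) (φ y v x)` by (F1), so `Fr P (φ y ^ x) x` by (F2), `φ x ≤ φ y ^ x`. `sup`: `Fr P (φ x v y) (x v y)`: by (F2) this is `Fr P (x ^ (φ x v y)) x`, and `φ x ≤ x ^ (φ x v y)`, (F1). In the same way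
`Fr P (φ x v φ y) (φ x v y)`. (F3): `Fr P (φ x v φ y) (x v y)`, so `φ (x v y) ≤ φ x v φ y`. `inf`: `Fr P (φ x ^ y) (x ^ y)` by (F2) from `Fr P (φ x) (φ x v (x ^ y))` (F1); in the same way `Fr P (φ x ^ φ y) (φ x ^ y)`; (F3) and (G). The last claim: `θ` maps the set `{y ≤ x | Fr P y x}` onto `{y ≤ θ x | Fr P y (θ x)}`. -/
def S_Cor : Prop :=
  ∀ (K : Type u) [Lattice K] [OrderBot K] [IsModularLattice K], Fh K → ∀ P : K → K → Prop, Cl P →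
    ∃ φ : K → K, Krn φ ∧ (∀ x, Fr P (φ x) x) ∧ (∀ x y, y ≤ x → Fr P y x → φ x ≤ y) ∧
      ∀ θ : K ≃o K, (∀ a b, P a b ↔ P (θ a) (θ b)) → ∀ x, φ (θ x) = θ (φ x)

/-- **Vmo** (60 lines). The image is modular and has finite heights.

Proof. Modular: `x ≤ z`: `(x v y) ^ z ≤ x v (y ^ z)`: apply `Vk.mk` to `(x v y) ^ z ≤ x v (y ^ z)` in `K` (`Vk.mk_sup`, `Vk.mk_inf`, `Vk.mk_coe`). Heights: `Order.height_le_height_apply_of_strictMono` for the inclusion. -/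
def S_Vmo : Prop :=
  ∀ (K : Type u) [Lattice K] [OrderBot K] [IsModularLattice K], Fh K → ∀ (φ : K → K) (h : Krn φ),
    IsModularLattice (Vk φ h) ∧ Fh (Vk φ h)

/-- **Lft** (150 lines). Squares of the image are lifted.

Proof. `z ⋖ a`, `z ⋖ b`, `a ≠ b` in `V = Vk φ h`; `m = a v b`. In `V` `a ^ b = z`, so `φ (a ^ b) = z`; not `a ≤ b`, not `b ≤ a`. In `K`: `a ^ b < a`; let `a ^ b ≤ a₁ ⋖ a`, `a ^ b ≤ b₁ ⋖ b` (B3). `φ a₁ ≤ a₁ < a` and `z = φ (a ^ b) ≤ φ a₁`, so `φ a₁ = z` (`z ⋖ a` in `V`), in the same way `φ b₁ = z`. `w = a₁ v b₁`,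
`φ w = z v z = z`. `a ^ w = a₁ v (a ^ b₁) = a₁` (modular law, `a ^ b₁ ≤ a ^ b ≤ a₁`), so `w ⋖ a v w` and `(a₁, a) ↗ (w, a v w)`; the same for `b`. `P a₁ a`: otherwise `Fr P a₁ a` (a member `(p, q)` of `P` with `a₁ ≤ p ⋖ q ≤ a` is `(a₁, a)`), so `φ a ≤ a₁`, but `φ a = a`. So `P w (a v w)` and `P w (b v w)`.
`a v w ≠ b v w`: otherwise `b ≤ a v w`, `b = φ b ≤ φ a v φ w = a v z = a`. -/
def S_Lft : Prop :=
  ∀ (K : Type u) [Lattice K] [OrderBot K] [IsModularLattice K], Fh K → ∀ P : K → K → Prop, Cl P →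
    ∀ (φ : K → K) (h : Krn φ), (∀ x y, y ≤ x → Fr P y x → φ x ≤ y) → ∀ z a b : Vk φ h,
      z ⋖ a → z ⋖ b → a ≠ b → ∃ w : K, φ w = z.1 ∧ w ≤ a.1 ⊔ b.1 ∧ P w (a.1 ⊔ w) ∧
        P w (b.1 ⊔ w) ∧ a.1 ⊔ w ≠ b.1 ⊔ w

/-- **Vth** (150 lines, uses `S_Vmo`, `S_Lft`). The image has thick squares and satisfies the condition on the involution.

Proof. (1) `z ⋖ a`, `z ⋖ b`, `a ≠ b` in `V`, `m = a v b`, `w` from `S_Lft`, `a' = a v w`, `b' = b v w`, `a' v b' = m`. `Pj (w, a') (w, b')` by hypothesis, so there is `Dia w a' b' c` in `K` (`Thk K`). Let `c₀ = φ c ∈ V`. `z = φ w ≤ c₀`, `c₀ ≤ m`. `c v a' = m` (B4), so `c₀ v a = φ c v φ a v φ w = φ (c v a') = φ m = m`, in the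
same way `c₀ v b = m`. Not `c₀ ≤ a` (otherwise `m = a`, `b ≤ a`), not `c₀ ≤ b`, so `c₀ ≠ a, b, z`; `c₀ ≤ c < m`. In the modular lattice `V` `z < c₀ < m`, so `z ⋖ c₀` (B1). (2) Let `Dia z a b c` in `V`, `w, a', b'` as before, `c' = c v w`. `φ c' = c v z = c`, so `c' ≠ w, a', b', m` (the values of `φ` are `z, a, b, m`; `φ a' = a v z = a`),
`w < c' < m`, so `w ⋖ c'` (B1) and `Dia w a' b' c'` in `K`. So `m = w v (m ^ θ m)`; apply `φ` (`Vk.mk`): `m = z v (m ^ θ m)` in `V`. -/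
def S_Vth : Prop :=
  ∀ (K : Type u) [Lattice K] [OrderBot K] [IsModularLattice K], Fh K → Thk K →
    ∀ P : K → K → Prop, Cl P → (∀ a b c d, P a b → P c d → Pj (a, b) (c, d)) →
    ∀ (φ : K → K) (h : Krn φ), (∀ x y, y ≤ x → Fr P y x → φ x ≤ y) →
      (∀ z a b : Vk φ h, z ⋖ a → z ⋖ b → a ≠ b → ∃ c, Dia z a b c) ∧
      ∀ (θ : K ≃o K) (hc : ∀ x, φ (θ x) = θ (φ x)), Dm θ → Dm (Vk.th (h := h) θ hc)

/-- **Pri** (100 lines). Join prime elements.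

Proof. `φ x` is the join of those of the elements `j`, `θ j` which are `≤ x` (`if j ≤ x then j else ⊥` `v` `if θ j ≤ x then θ j else ⊥`). `θ j` is also join prime. `Ctr`: `le` clear, `sup`: join prime, `comm`: `θ j ≤ θ x ↔ j ≤ x`, `j ≤ θ x ↔ θ j ≤ x`. `idem`: by cases. `φ j = j`: `θ j ≤ j` implies `j ≤ θ j`, `θ j = j`.
`low`: `φ x = x`, `θ x ≠ x`: `x` is one of `⊥, j, θ j, j v θ j` and `⊥`, `j v θ j` are symmetric, so `x = j` or `x = θ j`, `θ j ≠ j`. `φ y = y < x`, `y ≠ ⊥` : `y ≥ j` or `y ≥ θ j`, so `j < θ j` or `θ j < j` (or `j < j`), all impossible. -/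
def S_Pri : Prop :=
  ∀ (K : Type u) [Lattice K] [OrderBot K] (θ : K ≃o K), (∀ x, θ (θ x) = x) → ∀ j : K,
    (∀ x y, j ≤ x ⊔ y → j ≤ x ∨ j ≤ y) → ∃ φ : K → K, Good θ φ ∧ φ j = j

/-- **Thi** (150 lines, uses `S_Uni`, `S_Fra`, `S_Lin`, `S_Inv`, `S_Cor`, `S_Vmo`, `S_Vth`). Join irreducible elements which are not join prime.

Proof. `P a b := a ⋖ b ∧ Pj (i, j) (a, b)`. `Cl P`: clear (`EqvGen.rel`, `symm`, `trans`). `P a b`, `P c d` imply `Pj (a, b) (c, d)`. `θ` maps `Tr` to `Tr` and `Pj` to `Pj`. By `S_Lin` there is `Dia g (j v g) b c` with `Tr (i, j) (g, j v g)`; by `S_Inv` `Pj (g, j v g) (θ g, θ (j v g))`, and `(θ i, θ j) ↗ (θ g, θ (j v g))`. So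
`Pj (i, j) (θ i, θ j)`, and `P a b ↔ P (θ a) (θ b)` (`θ θ = 1`). Let `φ` be as in `S_Cor`, `V = Vk φ h` (modular, `Fh V`, thick squares, `Dm` for `θ' = Vk.th θ hc`; `θ' θ' = 1`). `φ j = j`: otherwise `φ j < j`, so `φ j ≤ i`, but `Fr P (φ j) j` and `P i j`. `Good`: `low`: let `x, y` be given, as elements of `V`; by `S_Uni` there is `s ∈ V` with `Ji s x`,
`θ s = s`; `y ≤ s`, `s ≤ x`, so `y ≤ θ s ≤ θ x`. `Φ` from `S_Fra` for `V`, `ψ x = (Φ (Vk.mk x)).1`: `Ctr θ ψ`, and `ψ x = Φ x = s`. -/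
def S_Thi : Prop :=
  ∀ (K : Type u) [Lattice K] [OrderBot K] [IsModularLattice K], Fh K → Thk K → ∀ (θ : K ≃o K),
    (∀ x, θ (θ x) = x) → Dm θ → ∀ i j : K, Ji i j →
    (∃ x y, j ≤ x ⊔ y ∧ ¬ j ≤ x ∧ ¬ j ≤ y) → ∃ φ : K → K, Good θ φ ∧ φ j = j

/-- **Enu** (80 lines, uses `S_Pri`, `S_Thi`). Enough operators.

Proof. Induction on `x` (B3). `x = ⊥`: `T = ∅`. If all `y < x` are below one element `i ⋖ x` (`Ji i x`): `x` is join prime or not, so `S_Pri` or `S_Thi` give `φ x = x`, `T = {φ}`. Otherwise let `u ⋖ x` and let `y < x` with not `y ≤ u`, so `x = u v y`; `T = T_u ∪ T_y` (`φ u ≤ φ x` by `sup`). -/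
def S_Enu : Prop :=
  ∀ (K : Type u) [Lattice K] [OrderBot K] [IsModularLattice K], Fh K → Thk K → ∀ (θ : K ≃o K),
    (∀ x, θ (θ x) = x) → Dm θ → ∀ x : K, ∃ T : Finset (K → K), (∀ φ ∈ T, Good θ φ) ∧
      x ≤ T.sup (fun φ => φ x)

end MP81M
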