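import Pool.Agent.Lib.MP_81b71e_M.Spec

/-!
# MP_81b71e_al, modular lattices: a diamond is transposed down
-/

set_option autoImplicit false

namespace MP81M

universe u

namespace TrpAux

variable {K : Type u} [Lattice K] [IsModularLattice K]

theorem sup_inf {z x u : K} (hzx : z ≤ x) (hx : x ≤ z ⊔ u) : z ⊔ (x ⊓ u) = x := by
  have h := sup_inf_assoc_of_le u hzx
  rw [inf_comm x u, ← h]
  exact inf_eq_right.2 hx

theorem cov {z x u : K} (hzx : z ⋖ x) (hx : x ≤ z ⊔ u) : z ⊓ u ⋖ x ⊓ u := by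
  have h1 := sup_inf hzx.le hx
  have h2 : z ⋖ z ⊔ (x ⊓ u) := by rw [h1]; exact hzx
  have h3 := inf_covBy_of_covBy_sup_left h2
  rwa [← inf_assoc, inf_eq_left.2 hzx.le] at h3

theorem ne {z x y u : K} (hzx : z ≤ x) (hzy : z ≤ y) (hx : x ≤ z ⊔ u) (hy : y ≤ z ⊔ u) (h : x ≠ y) :
    x ⊓ u ≠ y ⊓ u := by
  intro he
  apply h
  rw [← sup_inf hzx hx, he, sup_inf hzy hy]

theorem tr {z x u : K} (hzx : z ⋖ x) (hx : x ≤ z ⊔ u) : Tr (z ⊓ u, x ⊓ u) (z, x) := by
  refine ⟨cov hzx hx, hzx, ?_, ?_⟩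
  · show x ⊓ u ⊓ z = z ⊓ u
    rw [inf_assoc, inf_comm u z, ← inf_assoc, inf_eq_right.2 hzx.le]
  · show x ⊓ u ⊔ z = x
    rw [sup_comm]
    exact sup_inf hzx.le hx

end TrpAux

open TrpAux in
theorem tTrp : S_Trp.{u} := by
  intro K _ _ z a b c u hd hu
  obtain ⟨ha, hb, hc, hab, hac, hbc, hcm⟩ := hd
  have ha' : a ≤ z ⊔ u := by rw [hu]; exact le_sup_left
  have hb' : b ≤ z ⊔ u := by rw [hu]; exact le_sup_right
  have hc' : c ≤ z ⊔ u := by rw [hu]; exact hcm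
  have hp : a ⊓ u ⊔ b ⊓ u = u := by
    have h1 : a ⊓ u ⊔ b ⊓ u ≤ u := sup_le inf_le_right inf_le_right
    have h2 := sup_inf_assoc_of_le z h1
    have h3 : a ⊓ u ⊔ b ⊓ u ⊔ z = z ⊔ u := by
      rw [hu]
      apply le_antisymm
      · exact sup_le (sup_le (inf_le_left.trans le_sup_left) (inf_le_left.trans le_sup_right))
          (ha.le.trans le_sup_left)
      · apply sup_le
        · calc a = z ⊔ a ⊓ u := (sup_inf ha.le ha').symm
            _ ≤ _ := sup_le le_sup_right (le_sup_left.trans le_sup_left)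
        · calc b = z ⊔ b ⊓ u := (sup_inf hb.le hb').symm
            _ ≤ _ := sup_le le_sup_right (le_sup_right.trans le_sup_left)
    rw [h3, inf_eq_right.2 (le_sup_right : u ≤ z ⊔ u)] at h2
    rw [sup_eq_left.2 ((inf_le_inf_right u ha.le).trans le_sup_left)] at h2
    exact h2.symm
  refine ⟨⟨cov ha ha', cov hb hb', cov hc hc', ne ha.le hb.le ha' hb' hab, ne ha.le hc.le ha' hc' hac,
    ne hb.le hc.le hb' hc' hbc, ?_⟩, hp, tr ha ha', tr hb hb', tr hc hc'⟩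
  rw [hp]
  exact inf_le_right

end MP81M
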